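import Mathlib

/-! The two forms on the surface `∑ x_i y_i^2 = ∑ x_i^2 y_i = 0`, computed in a valuation ring. -/

namespace Q36.ZS

variable {K : Type} [Field K]

/-- the vector product of two vectors -/
def crs (x y : Fin 3 → K) : Fin 3 → K :=
  ![x 1 * y 2 - x 2 * y 1, x 2 * y 0 - x 0 * y 2, x 0 * y 1 - x 1 * y 0]

theorem crs_smul (x dx : Fin 3 → K) (a b : K) :
    crs (fun i => a * x i) (fun i => a * dx i + b * x i) = fun i => a ^ 2 * crs x dx i := by
  funext i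
  fin_cases i <;> simp [crs] <;> ring

theorem crs_mem (O : ValuationSubring K) {x y : Fin 3 → K} (hx : ∀ i, x i ∈ O)
    (hy : ∀ i, y i ∈ O) (i : Fin 3) : crs x y i ∈ O := by
  fin_cases i
  · exact sub_mem (mul_mem (hx 1) (hy 2)) (mul_mem (hx 2) (hy 1))
  · exact sub_mem (mul_mem (hx 2) (hy 0)) (mul_mem (hx 0) (hy 2))
  · exact sub_mem (mul_mem (hx 0) (hy 1)) (mul_mem (hx 1) (hy 0))

/-- a coordinate of least valuation -/
theorem exists_big (O : ValuationSubring K) (x : Fin 3 → K) (i0 : Fin 3) (h0 : x i0 ≠ 0) :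
    ∃ j, x j ≠ 0 ∧ ∀ i, (x j)⁻¹ * x i ∈ O := by
  classical
  obtain ⟨j, -, hj⟩ := Finset.exists_max_image (Finset.univ : Finset (Fin 3))
    (fun i => O.valuation (x i)) ⟨0, Finset.mem_univ _⟩
  have hj0 : x j ≠ 0 := by
    intro h
    have := hj i0 (Finset.mem_univ _)
    rw [h, map_zero, le_zero_iff, map_eq_zero] at this
    exact h0 this
  refine ⟨j, hj0, fun i => ?_⟩
  rw [← O.valuation_le_one_iff, map_mul, map_inv₀]
  have h1 : O.valuation (x j) ≠ 0 := by simpa using hj0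
  rw [inv_mul_le_one₀ (zero_lt_iff.2 h1)]
  exact hj i (Finset.mem_univ _)

variable {k : Type} [Field k] [Algebra k K]

theorem scaled_mem (O : ValuationSubring K) (D : Derivation k K K) (hD : ∀ z ∈ O, D z ∈ O)
    (x : Fin 3 → K) {j : Fin 3} (h : ∀ i, (x j)⁻¹ * x i ∈ O) (l : Fin 3) :
    (x j)⁻¹ ^ 2 * crs x (fun i => D (x i)) l ∈ O := by
  have h1 : crs (fun i => (x j)⁻¹ * x i) (fun i => D ((x j)⁻¹ * x i)) l ∈ O :=
    crs_mem O h (fun i => hD _ (h i)) l
  have h2 : (fun i => D ((x j)⁻¹ * x i)) = fun i => (x j)⁻¹ * D (x i) + D (x j)⁻¹ * x i := by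
    funext i
    rw [D.leibniz]
    simp only [smul_eq_mul]
    ring
  rw [h2, crs_smul] at h1
  exact h1

theorem core_mem (O : ValuationSubring K) (p : ℕ) [CharP K p]
    (D D' : Derivation k K K)
    (hD : ∀ z ∈ O, D z ∈ O) (hD' : ∀ z ∈ O, D' z ∈ O) {x y : Fin 3 → K}
    (h1 : ∑ i, x i * y i ^ p = 0) (h2 : ∑ i, x i ^ p * y i = 0) (hx : x 0 = 1) (hy : y 2 = 1)
    {c : K} (hc : ∀ j, x j ≠ 0 → (∀ i, (x j)⁻¹ * x i ∈ O) → (x j)⁻¹ * c ∈ O)
    (m n : ℕ) (hmn : m + n + 2 = p) :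
    D (x 1) * D' (y 1) * c ^ m ∈ O := by
  obtain ⟨j, hj, hj'⟩ := exists_big O x 0 (by rw [hx]; exact one_ne_zero)
  obtain ⟨l, hl, hl'⟩ := exists_big O y 2 (by rw [hy]; exact one_ne_zero)
  have e1 := scaled_mem O D hD x hj' l
  have e2 := scaled_mem O D' hD' y hl' j
  have sq : ∀ (E : Derivation k K K) (z : K), E (z ^ p) = 0 := by
    intro E z
    rw [E.leibniz_pow]
    simp [← Nat.cast_smul_eq_nsmul K]
  have r1 : D (x 1) * y 1 ^ p + D (x 2) = 0 := by
    have := congrArg D h1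
    simp only [Fin.sum_univ_three, map_add, D.leibniz, sq, smul_eq_mul, hx, hy, map_zero] at this
    simp at this
    linear_combination this
  have r2 : D' (y 0) + x 1 ^ p * D' (y 1) = 0 := by
    have := congrArg D' h2
    simp only [Fin.sum_univ_three, map_add, D'.leibniz, sq, smul_eq_mul, hx, hy, map_zero] at this
    simp at this
    linear_combination this
  have y2 : y 2 ^ p = 1 := by rw [hy, one_pow]
  have x0 : x 0 ^ p = 1 := by rw [hx, one_pow]
  rw [Fin.sum_univ_three, y2, hx] at h1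
  rw [Fin.sum_univ_three, x0, hy] at h2
  have c1 : crs x (fun i => D (x i)) l = D (x 1) * y l ^ p := by
    fin_cases l
    · simp [crs]
      linear_combination x 1 * r1 - D (x 1) * h1
    · simp [crs, hx]
      linear_combination -r1
    · simp [crs, hx, hy]
  have c2 : crs y (fun i => D' (y i)) j = - (D' (y 1) * x j ^ p) := by
    fin_cases j
    · simp [crs, hx, hy]
    · simp [crs, hy]
      linear_combination r2
    · simp [crs]
      linear_combination -(y 1) * r2 + D' (y 1) * h2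
  rw [c1] at e1
  rw [c2] at e2
  have e3 := mul_mem e1 e2
  have e5 : (x j)⁻¹ ∈ O := by simpa [hx] using hj' 0
  have e6 : (y l)⁻¹ ∈ O := by simpa [hy] using hl' 2
  have e7 := hc j hj hj'
  have e8 := mul_mem (mul_mem (mul_mem e3 (pow_mem e5 n)) (pow_mem e6 (m + n))) (pow_mem e7 m)
  subst hmn
  have e4 : (x j)⁻¹ ^ 2 * (D (x 1) * y l ^ (m + n + 2)) *
      ((y l)⁻¹ ^ 2 * -(D' (y 1) * x j ^ (m + n + 2))) * (x j)⁻¹ ^ n * (y l)⁻¹ ^ (m + n) *
      ((x j)⁻¹ * c) ^ m = - (D (x 1) * D' (y 1) * c ^ m) := by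
    simp only [pow_add, mul_pow, inv_pow]
    field_simp
  rw [e4] at e8
  simpa using neg_mem e8

end Q36.ZS
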