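import Mathlib

/-! Closed subsets of a product of two planes, their function fields, degrees of rational maps
to projective spaces. -/

namespace Q36.ZS

open MvPolynomial

variable (k : Type) [Field k]

/-- The polynomial `x_0 y_0^p + x_1 y_1^p + x_2 y_2^p`. The variable `Sum.inl i` is the coordinate
`x_i` of the first plane, the variable `Sum.inr i` is the coordinate `y_i` of the second plane. -/
noncomputable def eqOne (p : ℕ) : MvPolynomial (Fin 3 ⊕ Fin 3) k :=
  ∑ i : Fin 3, X (Sum.inl i) * X (Sum.inr i) ^ p

/-- The polynomial `x_0^p y_0 + x_1^p y_1 + x_2^p y_2`. -/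
noncomputable def eqTwo (p : ℕ) : MvPolynomial (Fin 3 ⊕ Fin 3) k :=
  ∑ i : Fin 3, X (Sum.inl i) ^ p * X (Sum.inr i)

/-- The linear form with coefficients `l` in the coordinates of the first plane. -/
noncomputable def lineEq (l : Fin 3 → k) : MvPolynomial (Fin 3 ⊕ Fin 3) k :=
  ∑ i : Fin 3, C (l i) * X (Sum.inl i)

variable {k}

/-- The pairs of homogeneous coordinate vectors of the points of the product of two planes at
which the polynomials of the set `E` vanish. -/
def Locus (E : Set (MvPolynomial (Fin 3 ⊕ Fin 3) k)) : Set ((Fin 3 → k) × (Fin 3 → k)) :=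
  {z | z.1 ≠ 0 ∧ z.2 ≠ 0 ∧ ∀ P ∈ E, eval (Sum.elim z.1 z.2) P = 0}

/-- `P` is homogeneous of degree `m` in the `x_i` and homogeneous of degree `n` in the `y_i`. -/
def IsBihom (P : MvPolynomial (Fin 3 ⊕ Fin 3) k) (m n : ℕ) : Prop :=
  ∀ d ∈ P.support, ∑ i : Fin 3, d (Sum.inl i) = m ∧ ∑ i : Fin 3, d (Sum.inr i) = n

/-- The vector of partial derivatives of `P` at a point. -/
noncomputable def grad (P : MvPolynomial (Fin 3 ⊕ Fin 3) k) (z : (Fin 3 → k) × (Fin 3 → k)) :
    Fin 3 ⊕ Fin 3 → k :=
  fun i => eval (Sum.elim z.1 z.2) (pderiv i P)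

/-- `K`, with the point of the product of two planes with coordinates `x`, `y` in `K`, is the
function field of the closed subset `Z`, with its generic point: the bihomogeneous polynomials
vanishing at the point are those vanishing on `Z` (so that `Z` is irreducible), and `K` is generated
by the ratios of coordinates. -/
def IsFunctionField (Z : Set ((Fin 3 → k) × (Fin 3 → k))) (K : Type) [Field K] [Algebra k K]
    (x y : Fin 3 → K) : Prop :=
  x ≠ 0 ∧ y ≠ 0 ∧
  (∀ (P : MvPolynomial (Fin 3 ⊕ Fin 3) k) (m n : ℕ), IsBihom P m n →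
    (aeval (Sum.elim x y) P = 0 ↔ ∀ z ∈ Z, eval (Sum.elim z.1 z.2) P = 0)) ∧
  IntermediateField.adjoin k
    (Set.range (fun ij : Fin 3 × Fin 3 => x ij.1 / x ij.2) ∪
      Set.range (fun ij : Fin 3 × Fin 3 => y ij.1 / y ij.2)) = ⊤

/-- The functions `f_1, …, f_n` in `K` define a dominant rational map, of degree `d`, of a variety
with function field `K` to the projective space of dimension `n`. -/
def IsMapOfDegree (k K : Type) [Field k] [Field K] [Algebra k K] (n : ℕ) (f : Fin n → K)
    (d : ℕ) : Prop :=
  AlgebraicIndependent k f ∧ 0 < d ∧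
    Module.finrank (IntermediateField.adjoin k (Set.range f)) K = d

/-- `d` is the least degree of a dominant rational map to the projective space of
dimension `n`. -/
def LeastDegree (k K : Type) [Field k] [Field K] [Algebra k K] (n d : ℕ) : Prop :=
  IsLeast {e : ℕ | ∃ f : Fin n → K, IsMapOfDegree k K n f e} d

/-- The surface of the result: the common zeros of the two equations. -/
noncomputable def surface (k : Type) [Field k] (p : ℕ) : Set (MvPolynomial (Fin 3 ⊕ Fin 3) k) :=
  {eqOne k p, eqTwo k p}

end Q36.ZS
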