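import Mathlib
import Pool.Agent.Q36.ZS.Co

/-! Vectors in three-space over a field of characteristic `p`. -/

namespace Q36.ZS

section ring

variable {A : Type} [CommRing A]

/-- the scalar product -/
def dt (x y : Fin 3 → A) : A := x 0 * y 0 + x 1 * y 1 + x 2 * y 2

/-- the vector product -/
def cr (x y : Fin 3 → A) : Fin 3 → A :=
  ![x 1 * y 2 - x 2 * y 1, x 2 * y 0 - x 0 * y 2, x 0 * y 1 - x 1 * y 0]

/-- raising the coordinates to a power -/
def pw (n : ℕ) (x : Fin 3 → A) : Fin 3 → A := fun i => x i ^ n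

theorem dt_cr_left (x y : Fin 3 → A) : dt x (cr x y) = 0 := by simp [dt, cr]; ring

theorem dt_cr_right (x y : Fin 3 → A) : dt y (cr x y) = 0 := by simp [dt, cr]; ring

theorem cr_cr (a b c : Fin 3 → A) : cr a (cr b c) = dt a c • b - dt a b • c := by
  funext i; fin_cases i <;> simp [dt, cr] <;> ring

theorem cr_cr' (a b c : Fin 3 → A) : cr (cr a b) c = dt a c • b - dt b c • a := by
  funext i; fin_cases i <;> simp [dt, cr] <;> ring

theorem pw_pw (m n : ℕ) (x : Fin 3 → A) : pw m (pw n x) = pw (n * m) x := by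
  funext i; simp [pw, pow_mul]

theorem pw_smul (n : ℕ) (a : A) (x : Fin 3 → A) : pw n (a • x) = a ^ n • pw n x := by
  funext i; simp [pw, mul_pow]

theorem cr_smul (a b : A) (x y : Fin 3 → A) : cr (a • x) (b • y) = (a * b) • cr x y := by
  funext i; fin_cases i <;> simp [cr] <;> ring

theorem cr_self (x : Fin 3 → A) : cr x x = 0 := by
  funext i; fin_cases i <;> simp [cr] <;> ring

theorem map_cr {B : Type} [CommRing B] (f : A →+* B) (x y : Fin 3 → A) (i : Fin 3) :
    f (cr x y i) = cr (fun i => f (x i)) (fun i => f (y i)) i := by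
  fin_cases i <;> simp [cr]

theorem map_dt {B : Type} [CommRing B] (f : A →+* B) (x y : Fin 3 → A) :
    f (dt x y) = dt (fun i => f (x i)) (fun i => f (y i)) := by
  simp [dt]

variable (p : ℕ) [Fact p.Prime] [CharP A p]

theorem pw_add (n : ℕ) (x y : Fin 3 → A) : pw (p ^ n) (x + y) = pw (p ^ n) x + pw (p ^ n) y := by
  funext i
  simp only [pw, Pi.add_apply]
  rw [add_pow_char_pow]

theorem dt_pw (n : ℕ) (x y : Fin 3 → A) : dt (pw (p ^ n) x) (pw (p ^ n) y) = dt x y ^ p ^ n := by
  simp only [dt, pw]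
  rw [add_pow_char_pow, add_pow_char_pow, mul_pow, mul_pow, mul_pow]

theorem cr_pw (n : ℕ) (x y : Fin 3 → A) : cr (pw (p ^ n) x) (pw (p ^ n) y) = pw (p ^ n) (cr x y) := by
  funext i
  fin_cases i <;> simp [cr, pw, sub_pow_char_pow, mul_pow]

end ring

section field

variable {F : Type} [Field F]

theorem exists_ne {x : Fin 3 → F} (h : x ≠ 0) : ∃ i, x i ≠ 0 := by
  by_contra h0
  push Not at h0
  exact h (funext h0)

theorem par {v N : Fin 3 → F} (hN : N ≠ 0) (h : cr v N = 0) : ∃ c : F, v = c • N := by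
  obtain ⟨i, hi⟩ := exists_ne hN
  have e0 := congrFun h 0
  have e1 := congrFun h 1
  have e2 := congrFun h 2
  simp [cr] at e0 e1 e2
  refine ⟨v i / N i, ?_⟩
  funext j
  fin_cases i <;> fin_cases j <;> simp at hi ⊢ <;> field_simp
  · linear_combination -e2
  · linear_combination e1
  · linear_combination e2
  · linear_combination -e0
  · linear_combination -e1
  · linear_combination e0

/-- the plane orthogonal to a vector -/
theorem exists_basis {m : Fin 3 → F} (hm : m ≠ 0) :
    ∃ (A B : Fin 3 → F) (c : F), c ≠ 0 ∧ cr A B = c • m ∧ dt m A = 0 ∧ dt m B = 0 ∧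
      ∀ S, dt m S = 0 → ∃ a b : F, S = a • A + b • B := by
  obtain ⟨i, hi⟩ := exists_ne hm
  fin_cases i
  · refine ⟨![-m 1, m 0, 0], ![-m 2, 0, m 0], m 0, hi, ?_, ?_, ?_, fun S hS =>
      ⟨S 1 / m 0, S 2 / m 0, ?_⟩⟩
    · funext j; fin_cases j <;> simp [cr] <;> ring
    · simp [dt]; ring
    · simp [dt]; ring
    · simp [dt] at hS hi
      funext j; fin_cases j <;> simp <;> field_simp
      linear_combination hS
  · refine ⟨![0, -m 2, m 1], ![m 1, -m 0, 0], m 1, hi, ?_, ?_, ?_, fun S hS =>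
      ⟨S 2 / m 1, S 0 / m 1, ?_⟩⟩
    · funext j; fin_cases j <;> simp [cr] <;> ring
    · simp [dt]; ring
    · simp [dt]; ring
    · simp [dt] at hS hi
      funext j; fin_cases j <;> simp <;> field_simp
      linear_combination hS
  · refine ⟨![m 2, 0, -m 0], ![0, m 2, -m 1], m 2, hi, ?_, ?_, ?_, fun S hS =>
      ⟨S 0 / m 2, S 1 / m 2, ?_⟩⟩
    · funext j; fin_cases j <;> simp [cr] <;> ring
    · simp [dt]; ring
    · simp [dt]; ring
    · simp [dt] at hS hi
      funext j; fin_cases j <;> simp <;> field_simp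
      linear_combination hS

variable (p : ℕ) [Fact p.Prime] [CharP F p]

/-- the determinant of Moore -/
def moore (q : ℕ) (m : Fin 3 → F) : F := dt (cr m (pw q m)) (pw (q * q) m)

theorem moore_cr {q : ℕ} {m : Fin 3 → F} (h : moore q m ≠ 0) : cr m (pw q m) ≠ 0 := by
  intro h0
  apply h
  rw [moore, h0]
  simp [dt]

theorem moore_pt {n : ℕ} {m S : Fin 3 → F} (h : moore (p ^ n) m ≠ 0) (hS : S ≠ 0)
    (hmS : dt m S = 0) : cr S (pw (p ^ n) S) ≠ 0 := by
  intro h0
  have h0' : cr (pw (p ^ n) S) S = 0 := by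
    funext i
    have := congrFun h0 i
    fin_cases i <;> simp [cr] at this ⊢ <;> linear_combination -this
  obtain ⟨c, hc⟩ := par hS h0'
  obtain ⟨i, hi⟩ := exists_ne hS
  have hc0 : c ≠ 0 := by
    rintro rfl
    have := congrFun hc i
    simp [pw] at this
    exact hi this.1
  have e1 : dt (pw (p ^ n) m) S = 0 := by
    have h1 := dt_pw p n m S
    rw [hmS, zero_pow (pow_ne_zero _ (Nat.Prime.ne_zero Fact.out)), hc] at h1
    have h2 : dt (pw (p ^ n) m) (c • S) = c * dt (pw (p ^ n) m) S := by simp [dt]; ring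
    rw [h2] at h1
    exact (mul_eq_zero.1 h1).resolve_left hc0
  have e2 : dt (pw (p ^ n * p ^ n) m) S = 0 := by
    have h1 := dt_pw p n (pw (p ^ n) m) S
    rw [e1, zero_pow (pow_ne_zero _ (Nat.Prime.ne_zero Fact.out)), hc, pw_pw] at h1
    have h2 : dt (pw (p ^ n * p ^ n) m) (c • S) = c * dt (pw (p ^ n * p ^ n) m) S := by
      simp [dt]; ring
    rw [h2] at h1
    exact (mul_eq_zero.1 h1).resolve_left hc0
  have e3 : cr S (cr m (pw (p ^ n) m)) = 0 := by
    rw [cr_cr]
    have a1 : dt S (pw (p ^ n) m) = 0 := by rw [← e1]; simp [dt]; ring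
    have a2 : dt S m = 0 := by rw [← hmS]; simp [dt]; ring
    rw [a1, a2]; simp
  have e4 : cr (cr m (pw (p ^ n) m)) S = 0 := by
    funext i
    have := congrFun e3 i
    fin_cases i <;> simp [cr] at this ⊢ <;> linear_combination -this
  obtain ⟨e, he⟩ := par hS e4
  apply h
  rw [moore, he]
  have : dt (e • S) (pw (p ^ n * p ^ n) m) = e * dt (pw (p ^ n * p ^ n) m) S := by
    simp [dt]; ring
  rw [this, e2, mul_zero]

end field

end Q36.ZS
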