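import Mathlib
import Pool.Agent.Q36.ZS.Ve
import Pool.Agent.Q36.ZS.Df

/-! Points of the surface and of its sections by lines. -/

namespace Q36.ZS

open MvPolynomial

section scale

variable {k : Type} [Field k] {P : MvPolynomial (Fin 3 ⊕ Fin 3) k} {m n : ℕ}

theorem bihom_scale {A : Type} [CommRing A] [Algebra k A] (hP : IsBihom P m n) (x y : Fin 3 → A)
    (a b : A) : aeval (Sum.elim (a • x) (b • y)) P = a ^ m * b ^ n * aeval (Sum.elim x y) P := by
  rw [aeval_def, aeval_def, eval₂_eq', eval₂_eq', Finset.mul_sum]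
  apply Finset.sum_congr rfl
  intro d hd
  obtain ⟨h1, h2⟩ := hP d hd
  rw [Fintype.prod_sum_type, Fintype.prod_sum_type]
  simp only [Sum.elim_inl, Sum.elim_inr, Pi.smul_apply, smul_eq_mul, mul_pow,
    Finset.prod_mul_distrib, Finset.prod_pow_eq_pow_sum, h1, h2]
  ring

theorem bihom_scale_eval (hP : IsBihom P m n) (x y : Fin 3 → k)
    (a b : k) : eval (Sum.elim (a • x) (b • y)) P = a ^ m * b ^ n * eval (Sum.elim x y) P :=
  bihom_scale hP x y a b

theorem arc {σ : Type} [Infinite k] (P : MvPolynomial σ k) (c : σ → Polynomial k)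
    (h : ∀ t : k, t ≠ 0 → eval (fun i => (c i).eval t) P = 0) :
    eval (fun i => (c i).eval 0) P = 0 := by
  have key : ∀ t : k, (aeval c P).eval t = eval (fun i => (c i).eval t) P := by
    intro t
    have h1 := comp_aeval_apply (f := c) (Polynomial.aeval t : Polynomial k →ₐ[k] k) P
    rw [Polynomial.coe_aeval_eq_eval] at h1
    rw [h1]
    rfl
  have h0 : aeval c P = 0 := by
    apply Polynomial.eq_zero_of_infinite_isRoot
    refine Set.Infinite.mono ?_ (Set.finite_singleton (0 : k)).infinite_compl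
    intro t ht
    change (aeval c P).eval t = 0
    rw [key]
    exact h t ht
  rw [← key, h0, Polynomial.eval_zero]

end scale

section pts

variable {k : Type} [Field k] (p : ℕ) [Fact p.Prime] [CharP k p]

/-- the parametrisation of the surface -/
def ph {A : Type} [CommRing A] (p : ℕ) (S : Fin 3 → A) : Fin 3 ⊕ Fin 3 → A :=
  Sum.elim (pw p S) (cr S (pw (p ^ 2) S))

theorem ph_smul {A : Type} [CommRing A] (a : A) (S : Fin 3 → A) :
    ph p (a • S) = Sum.elim (a ^ p • pw p S) ((a * a ^ p ^ 2) • cr S (pw (p ^ 2) S)) := by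
  rw [ph, pw_smul, pw_smul, cr_smul]

theorem map_ph {A B : Type} [CommRing A] [CommRing B] (f : A →+* B) (S : Fin 3 → A)
    (i : Fin 3 ⊕ Fin 3) : f (ph p S i) = ph p (fun i => f (S i)) i := by
  rcases i with i | i
  · simp [ph, pw]
  · simp only [ph, Sum.elim_inr]
    rw [map_cr]
    congr 1
    funext i
    simp [pw]

theorem eval_ph_smul {P : MvPolynomial (Fin 3 ⊕ Fin 3) k} {m n : ℕ} (hP : IsBihom P m n)
    (a : k) {S : Fin 3 → k} (h : eval (ph p S) P = 0) : eval (ph p (a • S)) P = 0 := by
  rw [ph_smul]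
  have := bihom_scale_eval hP (pw p S) (cr S (pw (p ^ 2) S)) (a ^ p) (a * a ^ p ^ 2)
  rw [this]
  change _ * eval (ph p S) P = 0
  rw [h, mul_zero]

theorem mem_surface (z : (Fin 3 → k) × (Fin 3 → k)) :
    z ∈ Locus (surface k p) ↔ z.1 ≠ 0 ∧ z.2 ≠ 0 ∧ dt z.1 (pw p z.2) = 0 ∧
      dt (pw p z.1) z.2 = 0 := by
  simp [Locus, surface, eqOne, eqTwo, Fin.sum_univ_three, dt, pw]

theorem mem_line (l : Fin 3 → k) (z : (Fin 3 → k) × (Fin 3 → k)) :
    z ∈ Locus (surface k p ∪ {lineEq k l}) ↔ z ∈ Locus (surface k p) ∧ dt l z.1 = 0 := by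
  simp [Locus, surface, eqOne, eqTwo, lineEq, Fin.sum_univ_three, dt]
  tauto

theorem ph_mem {S : Fin 3 → k} (h : cr S (pw (p ^ 2) S) ≠ 0) :
    ((pw p S, cr S (pw (p ^ 2) S)) : (Fin 3 → k) × (Fin 3 → k)) ∈ Locus (surface k p) := by
  have hp : p ≠ 0 := Nat.Prime.ne_zero Fact.out
  rw [mem_surface]
  refine ⟨?_, h, ?_, ?_⟩
  · intro h0
    apply h
    have : S = 0 := by
      funext i
      have := congrFun h0 i
      simpa [pw, hp] using this
    rw [this]
    funext i
    fin_cases i <;> simp [cr]
  · have := dt_pw p 1 S (cr S (pw (p ^ 2) S))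
    rw [dt_cr_left, pow_one, zero_pow hp] at this
    exact this
  · change dt (pw p (pw p S)) (cr S (pw (p ^ 2) S)) = 0
    rw [pw_pw, ← pow_two, dt_cr_right]

/-- Points of the surface are limits of points of the parametrisation. -/
theorem vanish_of_ph [IsAlgClosed k] {P : MvPolynomial (Fin 3 ⊕ Fin 3) k} {m n : ℕ}
    (hP : IsBihom P m n)
    (h : ∀ S : Fin 3 → k, eval (ph p S) P = 0) (z : (Fin 3 → k) × (Fin 3 → k))
    (hz : z ∈ Locus (surface k p)) : eval (Sum.elim z.1 z.2) P = 0 := by
  have hp : p ≠ 0 := Nat.Prime.ne_zero Fact.out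
  obtain ⟨hx, hy, e1, e2⟩ := (mem_surface p z).1 hz
  obtain ⟨x, y⟩ := z
  dsimp only at hx hy e1 e2 ⊢
  have hroot : ∀ i, ∃ s, s ^ p = x i := fun i => IsAlgClosed.exists_pow_nat_eq _
    (Nat.pos_of_ne_zero hp)
  choose S hS using hroot
  have hS' : x = pw p S := by funext i; exact (hS i).symm
  subst hS'
  have hS0 : S ≠ 0 := by
    rintro rfl
    apply hx
    funext i
    simp [pw, hp]
  have f1 : dt S y = 0 := by
    have := dt_pw p 1 S y
    rw [pow_one, e1] at this
    exact pow_eq_zero_iff hp |>.1 this.symm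
  have f2 : dt (pw (p ^ 2) S) y = 0 := by
    rw [pw_pw, ← pow_two] at e2
    exact e2
  by_cases hN : cr S (pw (p ^ 2) S) = 0
  · -- a point over a rational point of the plane
    have h0' : cr (pw (p ^ 2) S) S = 0 := by
      funext i
      have := congrFun hN i
      fin_cases i <;> simp [cr] at this ⊢ <;> linear_combination -this
    obtain ⟨c, hc⟩ := par hS0 h0'
    obtain ⟨i, hi⟩ := exists_ne hS0
    have hc0 : c ≠ 0 := by
      rintro rfl
      have := congrFun hc i
      simp [pw] at this
      exact hi this.1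
    -- `y = v × S`
    obtain ⟨v, hv⟩ : ∃ v : Fin 3 → k, y = cr v S := by
      have h1 := cr_cr' (Pi.single i 1) y S
      have h2 : dt (Pi.single i 1) S = S i := by
        fin_cases i <;> simp [dt]
      have h3 : dt y S = 0 := by rw [← f1]; simp [dt]; ring
      rw [h2, h3, zero_smul, sub_zero] at h1
      refine ⟨(S i)⁻¹ • cr (Pi.single i 1) y, ?_⟩
      have h4 := cr_smul (S i)⁻¹ 1 (cr (Pi.single i 1) y) S
      rw [one_smul, mul_one, h1, smul_smul, inv_mul_cancel₀ hi, one_smul] at h4
      exact h4.symm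
    have hq : p ^ 2 ≠ 0 := pow_ne_zero _ hp
    have hq1 : p ^ 2 - 1 ≠ 0 := by
      have := Nat.Prime.two_le (Fact.out : p.Prime)
      have : 2 ≤ p ^ 2 := this.trans (by nlinarith)
      omega
    -- the arc
    have hvan : eval (Sum.elim (pw p S) (c • y)) P = 0 := by
      let C1 : Fin 3 → Polynomial k := fun i => (Polynomial.C (S i) + Polynomial.X *
        Polynomial.C (v i)) ^ p
      let C2 : Fin 3 → Polynomial k := fun i => Polynomial.C (c * y i) +
        Polynomial.X ^ (p ^ 2 - 1) * (Polynomial.C (cr S (pw (p ^ 2) v) i) +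
          Polynomial.X * Polynomial.C (cr v (pw (p ^ 2) v) i))
      have harc := arc P (Sum.elim C1 C2) (fun t ht => by
        have g1 : (fun i => ((Sum.elim C1 C2) i).eval t) =
            Sum.elim (pw p (S + t • v)) (t⁻¹ • cr (S + t • v) (pw (p ^ 2) (S + t • v))) := by
          funext i
          rcases i with i | i
          · simp only [Sum.elim_inl, C1, pw, Polynomial.eval_pow, Polynomial.eval_add,
              Polynomial.eval_mul, Polynomial.eval_X, Polynomial.eval_C, Pi.add_apply,
              Pi.smul_apply, smul_eq_mul]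
          · have hm : (p ^ 2 - 1) + 1 = p ^ 2 := by omega
            have g2 : cr (S + t • v) (pw (p ^ 2) (S + t • v)) i =
                t * (c * y i + t ^ (p ^ 2 - 1) * (cr S (pw (p ^ 2) v) i +
                  t * cr v (pw (p ^ 2) v) i)) := by
              rw [pw_add p 2, pw_smul, hc, hv]
              have g3 : cr (S + t • v) (c • S + t ^ p ^ 2 • pw (p ^ 2) v) =
                  (t * c) • cr v S + t ^ p ^ 2 • (cr S (pw (p ^ 2) v) +
                    t • cr v (pw (p ^ 2) v)) := by
                funext j; fin_cases j <;> simp [cr] <;> ring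
              rw [g3]
              have hm' : t ^ p ^ 2 = t * t ^ (p ^ 2 - 1) := by rw [← pow_succ', hm]
              simp only [Pi.add_apply, Pi.smul_apply, smul_eq_mul]
              rw [hm']
              ring
            simp only [Sum.elim_inr, Pi.smul_apply, smul_eq_mul]
            rw [g2]
            simp [C2]
            field_simp
        rw [g1]
        have := bihom_scale_eval hP (pw p (S + t • v)) (cr (S + t • v) (pw (p ^ 2) (S + t • v))) 1 t⁻¹
        rw [one_smul] at this
        rw [this]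
        change _ * eval (ph p (S + t • v)) P = 0
        rw [h, mul_zero])
      have g4 : (fun i => ((Sum.elim C1 C2) i).eval 0) = Sum.elim (pw p S) (c • y) := by
        funext i
        rcases i with i | i
        · simp [C1, pw]
        · simp [C2, hq1]
      rwa [g4] at harc
    have h6 := bihom_scale_eval hP (pw p S) (c • y) 1 c⁻¹
    rw [one_smul, smul_smul, inv_mul_cancel₀ hc0, one_smul,
      hvan, mul_zero] at h6
    exact h6
  · -- a point of the parametrisation
    have h3 : cr y (cr S (pw (p ^ 2) S)) = 0 := by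
      rw [cr_cr]
      have a1 : dt y (pw (p ^ 2) S) = 0 := by rw [← f2]; simp [dt]; ring
      have a2 : dt y S = 0 := by rw [← f1]; simp [dt]; ring
      rw [a1, a2]; simp
    obtain ⟨c, rfl⟩ := par hN h3
    have h6 := bihom_scale_eval hP (pw p S) (cr S (pw (p ^ 2) S)) 1 c
    rw [one_smul] at h6
    rw [h6]
    change _ * eval (ph p S) P = 0
    rw [h, mul_zero]

end pts

end Q36.ZS
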