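import Mathlib
import Pool.Agent.Q36.ZS.Ge

/-! Generic points of the surface and of its sections by lines. -/

namespace Q36.ZS

open MvPolynomial

section pts

variable {k : Type} [Field k] (p : ℕ) [Fact p.Prime] [CharP k p]

/-- evaluation at the polynomial point -/
theorem aeval_poly_eval {σ : Type} (P : MvPolynomial σ k) (c : σ → Polynomial k) (t : k) :
    (aeval c P).eval t = eval (fun i => (c i).eval t) P := by
  have h1 := comp_aeval_apply (f := c) (Polynomial.aeval t : Polynomial k →ₐ[k] k) P
  rw [Polynomial.coe_aeval_eq_eval] at h1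
  rw [h1]
  rfl

theorem aeval_mv_eval {σ τ : Type} (P : MvPolynomial σ k) (c : σ → MvPolynomial τ k) (t : τ → k) :
    eval t (aeval c P) = eval (fun i => eval t (c i)) P := by
  have h1 := comp_aeval_apply (f := c) (aeval t : MvPolynomial τ k →ₐ[k] k) P
  exact h1

/-- the line through two points -/
noncomputable def lin (A B : Fin 3 → k) : Fin 3 → Polynomial k :=
  fun i => Polynomial.C (A i) + Polynomial.X * Polynomial.C (B i)

theorem lin_eval (A B : Fin 3 → k) (t : k) : (fun i => (lin A B i).eval t) = A + t • B := by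
  funext i; simp [lin]; ring

theorem ph_lin_eval (A B : Fin 3 → k) (t : k) :
    (fun i => (ph p (lin A B) i).eval t) = ph p (A + t • B) := by
  funext i
  have := map_ph p (Polynomial.evalRingHom t) (lin A B) i
  rw [Polynomial.coe_evalRingHom] at this
  rw [this, lin_eval]

/-- the generic point of the plane -/
noncomputable def gpt (k : Type) [Field k] : Fin 3 → MvPolynomial (Fin 2) k := ![1, X 0, X 1]

theorem ph_gpt_eval (t : Fin 2 → k) :
    (fun i => eval t (ph p (gpt k) i)) = ph p ![1, t 0, t 1] := by
  funext i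
  have := map_ph p (eval t) (gpt k) i
  rw [this]
  congr 1
  funext j
  fin_cases j <;> simp [gpt]

theorem gen_surface [IsAlgClosed k] {P : MvPolynomial (Fin 3 ⊕ Fin 3) k} {m n : ℕ}
    (hP : IsBihom P m n) :
    aeval (ph p (gpt k)) P = 0 ↔ ∀ z ∈ Locus (surface k p), eval (Sum.elim z.1 z.2) P = 0 := by
  have hp : p ≠ 0 := Nat.Prime.ne_zero Fact.out
  constructor
  · intro h
    apply vanish_of_ph p hP
    have h1 : ∀ t : Fin 2 → k, eval (ph p ![1, t 0, t 1]) P = 0 := by
      intro t
      rw [← ph_gpt_eval, ← aeval_mv_eval, h, map_zero]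
    have h2 : ∀ S : Fin 3 → k, S 0 ≠ 0 → eval (ph p S) P = 0 := by
      intro S hS
      have h3 : S = S 0 • ![1, S 1 / S 0, S 2 / S 0] := by
        funext i; fin_cases i <;> simp <;> field_simp
      rw [h3]
      exact eval_ph_smul p hP _ (h1 ![S 1 / S 0, S 2 / S 0])
    intro S
    by_cases hS : S 0 = 0
    · have h4 := arc P (ph p (lin S (Pi.single 0 1))) (fun t ht => by
        rw [ph_lin_eval]
        apply h2
        simpa [hS] using ht)
      rw [ph_lin_eval] at h4
      simpa using h4
    · exact h2 S hS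
  · intro h
    have h1 : aeval (ph p (gpt k)) P * (X 1 - X 1 ^ p ^ 2) = 0 := by
      apply MvPolynomial.funext
      intro t
      rw [map_mul, aeval_mv_eval, ph_gpt_eval, map_zero]
      by_cases ht : t 1 - t 1 ^ p ^ 2 = 0
      · simp [ht]
      · have h2 : cr ![1, t 0, t 1] (pw (p ^ 2) ![1, t 0, t 1]) ≠ 0 := by
          intro h0
          apply ht
          have := congrFun h0 1
          simpa [cr, pw] using this
        have h3 := h _ (ph_mem p h2)
        have h4 : eval (ph p ![1, t 0, t 1]) P = 0 := h3
        rw [h4, zero_mul]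
    refine (mul_eq_zero.1 h1).resolve_right ?_
    intro h0
    -- the polynomial `X_1 - X_1 ^ (p ^ 2)` is not zero
    have h5 : ∀ s : k, s - s ^ p ^ 2 = 0 := by
      intro s
      have := congrArg (eval (fun _ => s)) h0
      simpa using this
    have h6 : (Polynomial.X - Polynomial.X ^ p ^ 2 : Polynomial k) = 0 := by
      apply Polynomial.funext
      intro s
      simpa using h5 s
    have h7 : (Polynomial.X - Polynomial.X ^ p ^ 2 : Polynomial k).coeff 1 = 1 := by
      have : 1 ≠ p ^ 2 := by
        have := Nat.Prime.two_le (Fact.out : p.Prime)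
        nlinarith
      simp [Polynomial.coeff_X_pow, this]
    rw [h6] at h7
    simp at h7

theorem gen_line [IsAlgClosed k] {m A B : Fin 3 → k} {c : k} (hc : c ≠ 0) (hm : m ≠ 0)
    (hAB : cr A B = c • m) (hA : dt m A = 0) (hB : dt m B = 0)
    (hsp : ∀ S, dt m S = 0 → ∃ a b : k, S = a • A + b • B) (hmo : moore (p ^ 2) m ≠ 0)
    {P : MvPolynomial (Fin 3 ⊕ Fin 3) k} {i j : ℕ} (hP : IsBihom P i j) :
    aeval (ph p (lin A B)) P = 0 ↔
      ∀ z ∈ Locus (surface k p ∪ {lineEq k (pw p m)}), eval (Sum.elim z.1 z.2) P = 0 := by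
  have hp : p ≠ 0 := Nat.Prime.ne_zero Fact.out
  have hadd : ∀ (a b : k), dt m (a • A + b • B) = 0 := by
    intro a b
    have : dt m (a • A + b • B) = a * dt m A + b * dt m B := by simp [dt]; ring
    rw [this, hA, hB]; ring
  constructor
  · intro h
    have h1 : ∀ t : k, eval (ph p (A + t • B)) P = 0 := by
      intro t
      rw [← ph_lin_eval, ← aeval_poly_eval, h, Polynomial.eval_zero]
    have h2 : ∀ a b : k, a ≠ 0 → eval (ph p (a • A + b • B)) P = 0 := by
      intro a b ha
      have h3 : a • A + b • B = a • (A + (b / a) • B) := by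
        rw [smul_add, smul_smul, mul_div_cancel₀ _ ha]
      rw [h3]
      exact eval_ph_smul p hP _ (h1 _)
    have h3 : ∀ a b : k, eval (ph p (a • A + b • B)) P = 0 := by
      intro a b
      by_cases ha : a = 0
      · have h4 := arc P (ph p (lin (b • B) A)) (fun t ht => by
          rw [ph_lin_eval, add_comm]
          exact h2 t b ht)
        rw [ph_lin_eval] at h4
        rw [ha, zero_smul, zero_add]
        simpa using h4
      · exact h2 a b ha
    intro z hz
    obtain ⟨hz1, hz2⟩ := (mem_line p _ _).1 hz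
    obtain ⟨hx, hy, e1, e2⟩ := (mem_surface p z).1 hz1
    obtain ⟨x, y⟩ := z
    dsimp only at hx hy e1 e2 hz2 ⊢
    have hroot : ∀ i, ∃ s, s ^ p = x i := fun i => IsAlgClosed.exists_pow_nat_eq _
      (Nat.pos_of_ne_zero hp)
    choose S hS using hroot
    have hS' : x = pw p S := by funext i; exact (hS i).symm
    subst hS'
    have hS0 : S ≠ 0 := by
      rintro rfl
      apply hx
      funext i
      simp [pw, hp]
    have f0 : dt m S = 0 := by
      have := dt_pw p 1 m S
      rw [pow_one, hz2] at this
      exact pow_eq_zero_iff hp |>.1 this.symm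
    have f1 : dt S y = 0 := by
      have := dt_pw p 1 S y
      rw [pow_one, e1] at this
      exact pow_eq_zero_iff hp |>.1 this.symm
    have f2 : dt (pw (p ^ 2) S) y = 0 := by
      rw [pw_pw, ← pow_two] at e2
      exact e2
    have hN := moore_pt p hmo hS0 f0
    obtain ⟨a, b, hab⟩ := hsp S f0
    have h4 : cr y (cr S (pw (p ^ 2) S)) = 0 := by
      rw [cr_cr]
      have a1 : dt y (pw (p ^ 2) S) = 0 := by rw [← f2]; simp [dt]; ring
      have a2 : dt y S = 0 := by rw [← f1]; simp [dt]; ring
      rw [a1, a2]; simp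
    obtain ⟨c, rfl⟩ := par hN h4
    have h6 := bihom_scale_eval hP (pw p S) (cr S (pw (p ^ 2) S)) 1 c
    rw [one_smul] at h6
    rw [h6]
    change _ * eval (ph p S) P = 0
    rw [hab, h3, mul_zero]
  · intro h
    apply Polynomial.funext
    intro t
    rw [aeval_poly_eval, ph_lin_eval, Polynomial.eval_zero]
    have h1 : dt m (A + t • B) = 0 := by
      have := hadd 1 t
      rwa [one_smul] at this
    have h0 : A + t • B ≠ 0 := by
      intro h0
      have h2 : cr (A + t • B) B = c • m := by
        rw [← hAB]; funext i; fin_cases i <;> simp [cr] <;> ring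
      rw [h0] at h2
      have h3 : cr 0 B = (0 : Fin 3 → k) := by funext i; fin_cases i <;> simp [cr]
      rw [h3] at h2
      exact (smul_ne_zero hc hm) h2.symm
    have h2 := moore_pt p hmo h0 h1
    have h3 : ((pw p (A + t • B), cr (A + t • B) (pw (p ^ 2) (A + t • B))) :
        (Fin 3 → k) × (Fin 3 → k)) ∈ Locus (surface k p ∪ {lineEq k (pw p m)}) := by
      rw [mem_line]
      refine ⟨ph_mem p h2, ?_⟩
      have := dt_pw p 1 m (A + t • B)
      rw [pow_one, h1, zero_pow hp] at this
      exact this
    exact h _ h3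

end pts

end Q36.ZS
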