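import Mathlib
import Pool.Agent.Q36.ZS.Gn

/-! The sections of the surface by general lines of the first plane are rational curves. -/

namespace Q36.ZS

open MvPolynomial

theorem least_one (k : Type) [Field k] : LeastDegree k (RatFunc k) 1 1 := by
  refine ⟨⟨fun _ => RatFunc.X, ?_, one_pos, ?_⟩, ?_⟩
  · rw [algebraicIndependent_unique_type_iff]
    exact RatFunc.transcendental_X
  · have h : IntermediateField.adjoin k (Set.range fun _ : Fin 1 => (RatFunc.X : RatFunc k)) = ⊤ := by
      rw [Set.range_const]
      exact RatFunc.adjoin_X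
    rw [h]
    exact IntermediateField.finrank_top
  · rintro e ⟨f, -, h, -⟩
    exact h

variable {k : Type} [Field k] (p : ℕ) [Fact p.Prime] [CharP k p]

theorem curve [IsAlgClosed k] {m : Fin 3 → k} (hmo : moore (p ^ 2) m ≠ 0) :
    ∃ x y : Fin 3 → RatFunc k,
      IsFunctionField (Locus (surface k p ∪ {lineEq k (pw p m)})) (RatFunc k) x y := by
  have hm : m ≠ 0 := by
    rintro rfl
    apply hmo
    simp [moore, dt, cr]
  obtain ⟨A, B, c, hc, hAB, hA, hB, hsp⟩ := exists_basis hm
  have hinj : Function.Injective (algebraMap (Polynomial k) (RatFunc k)) :=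
    RatFunc.algebraMap_injective k
  set e := algebraMap (Polynomial k) (RatFunc k) with he
  have hA0 : A ≠ 0 := by
    rintro rfl
    have h3 : cr 0 B = (0 : Fin 3 → k) := by funext i; fin_cases i <;> simp [cr]
    rw [h3] at hAB
    exact (smul_ne_zero hc hm) hAB.symm
  have hNA : cr A (pw (p ^ 2) A) ≠ 0 := moore_pt p hmo hA0 hA
  have hp : p ≠ 0 := Nat.Prime.ne_zero Fact.out
  set N : Fin 3 → Polynomial k := cr (lin A B) (pw (p ^ 2) (lin A B)) with hN
  have hev : ∀ i, (N i).eval 0 = cr A (pw (p ^ 2) A) i := by
    intro i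
    have := congrFun (ph_lin_eval p A B 0) (Sum.inr i)
    rw [zero_smul, add_zero] at this
    exact this
  obtain ⟨j, hj⟩ := exists_ne hNA
  have hNj : N j ≠ 0 := by
    intro h0
    apply hj
    rw [← hev, h0, Polynomial.eval_zero]
  obtain ⟨i0, hi0⟩ := exists_ne hA0
  refine ⟨fun i => e (pw p (lin A B) i), fun i => e (N i), ?_, ?_, ?_, ?_⟩
  · intro h0
    have h1 := congrFun h0 i0
    simp only [Pi.zero_apply] at h1
    have h2 := (map_eq_zero_iff e hinj).1 h1
    have h3 := congrArg (Polynomial.eval 0) h2
    simp [pw, lin, hp] at h3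
    exact hi0 h3
  · intro h0
    have h1 := congrFun h0 j
    simp only [Pi.zero_apply] at h1
    exact hNj ((map_eq_zero_iff e hinj).1 h1)
  · intro P a b hP
    rw [← gen_line p hc hm hAB hA hB hsp hmo hP]
    have h1 : (Sum.elim (fun i => e (pw p (lin A B) i)) fun i => e (N i)) =
        fun i => e (ph p (lin A B) i) := by
      funext i; rcases i with i | i <;> rfl
    have h2 : aeval (fun i => e (ph p (lin A B) i)) P = e (aeval (ph p (lin A B)) P) :=
      aeval_algebraMap_apply _ _ _
    rw [h1, h2, map_eq_zero_iff e hinj]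
  · rw [eq_top_iff, ← RatFunc.adjoin_X, IntermediateField.adjoin_le_iff, Set.singleton_subset_iff]
    set L := IntermediateField.adjoin k
      (Set.range (fun ij : Fin 3 × Fin 3 => e (pw p (lin A B) ij.1) / e (pw p (lin A B) ij.2)) ∪
        Set.range (fun ij : Fin 3 × Fin 3 => e (N ij.1) / e (N ij.2))) with hL
    have hrat : ∀ i, e (N i) / e (N j) ∈ L := fun i =>
      IntermediateField.subset_adjoin _ _ (Or.inr ⟨(i, j), rfl⟩)
    have hsum : ∀ C : Fin 3 → k, dt (fun i => e (Polynomial.C (C i))) (fun i => e (N i)) / e (N j)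
        ∈ L := by
      intro C
      have h1 : dt (fun i => e (Polynomial.C (C i))) (fun i => e (N i)) / e (N j) =
          algebraMap k (RatFunc k) (C 0) * (e (N 0) / e (N j)) +
          algebraMap k (RatFunc k) (C 1) * (e (N 1) / e (N j)) +
          algebraMap k (RatFunc k) (C 2) * (e (N 2) / e (N j)) := by
        have h2 : ∀ c : k, e (Polynomial.C c) = algebraMap k (RatFunc k) c := fun c => by
          rw [he, ← Polynomial.algebraMap_eq, ← IsScalarTower.algebraMap_apply]
        simp only [dt, h2]
        ring
      rw [h1]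
      exact add_mem (add_mem (mul_mem (IntermediateField.algebraMap_mem _ _) (hrat 0))
        (mul_mem (IntermediateField.algebraMap_mem _ _) (hrat 1)))
        (mul_mem (IntermediateField.algebraMap_mem _ _) (hrat 2))
    -- the relation `S · y = 0`
    have hrel : dt (fun i => Polynomial.C (A i)) N + Polynomial.X *
        dt (fun i => Polynomial.C (B i)) N = 0 := by
      have := dt_cr_left (lin A B) (pw (p ^ 2) (lin A B))
      rw [← this]
      simp only [dt, lin]
      ring
    have hBN : dt (fun i => Polynomial.C (B i)) N ≠ 0 := by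
      intro h0
      have h1 : dt (fun i => Polynomial.C (B i)) N =
          - (Polynomial.C c * (Polynomial.C (dt m (pw (p ^ 2) A)) +
            Polynomial.X ^ p ^ 2 * Polynomial.C (dt m (pw (p ^ 2) B)))) := by
        have h2 : dt (fun i => Polynomial.C (B i)) N = - dt (cr (fun i => Polynomial.C (A i))
            (fun i => Polynomial.C (B i))) (pw (p ^ 2) (lin A B)) := by
          simp [hN, dt, cr, lin]
          ring
        have h3 : cr (fun i => Polynomial.C (A i)) (fun i => Polynomial.C (B i)) =
            fun i => Polynomial.C c * Polynomial.C (m i) := by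
          funext i
          rw [← map_cr, hAB]
          simp
        have h4 : pw (p ^ 2) (lin A B) = fun i => Polynomial.C (A i ^ p ^ 2) +
            Polynomial.X ^ p ^ 2 * Polynomial.C (B i ^ p ^ 2) := by
          funext i
          simp only [pw, lin]
          rw [add_pow_char_pow, mul_pow]
          simp
        rw [h2, h3, h4]
        simp only [dt, pw, map_add, map_mul]
        ring
      rw [h1, neg_eq_zero, mul_eq_zero] at h0
      have h0' := h0.resolve_left (by simpa using hc)
      have a1 : dt m (pw (p ^ 2) A) = 0 := by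
        have := congrArg (Polynomial.eval 0) h0'
        simpa [hp] using this
      have a2 : dt m (pw (p ^ 2) B) = 0 := by
        have := congrArg (Polynomial.eval 1) h0'
        simpa [a1] using this
      have a3 : cr m (cr (pw (p ^ 2) A) (pw (p ^ 2) B)) = 0 := by
        rw [cr_cr, a1, a2]; simp
      rw [cr_pw, hAB, pw_smul] at a3
      have a4 := cr_smul 1 (c ^ p ^ 2) m (pw (p ^ 2) m)
      rw [one_smul, a3] at a4
      have a5 := moore_cr hmo
      exact (smul_ne_zero (mul_ne_zero one_ne_zero (pow_ne_zero _ hc)) a5) a4.symm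
    have hX : RatFunc.X = - (dt (fun i => e (Polynomial.C (A i))) (fun i => e (N i)) / e (N j)) /
        (dt (fun i => e (Polynomial.C (B i))) (fun i => e (N i)) / e (N j)) := by
      rw [← map_dt, ← map_dt]
      have b1 : e (N j) ≠ 0 := fun h => hNj ((map_eq_zero_iff e hinj).1 h)
      have b2 : e (dt (fun i => Polynomial.C (B i)) N) ≠ 0 :=
        fun h => hBN ((map_eq_zero_iff e hinj).1 h)
      have b3 := congrArg e hrel
      rw [map_add, map_mul, map_zero, he, RatFunc.algebraMap_X, ← he] at b3
      field_simp
      linear_combination b3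
    rw [hX]
    exact div_mem (neg_mem (hsum A)) (hsum B)

end Q36.ZS
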