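import Mathlib

/-! Derivations of fraction fields, the local ring at a prime element of a factorial domain. -/

namespace Q36.ZS

variable {k R K : Type} [Field k] [CommRing R] [IsDomain R] [Field K] [Algebra k R] [Algebra k K]
  [Algebra R K] [IsScalarTower k R K]

open KaehlerDifferential in
theorem exists_der [IsFractionRing R K] (d : Derivation k R K) :
    ∃ D : Derivation k K K, ∀ r, D (algebraMap R K r) = d r := by
  have hu : ∀ x : nonZeroDivisors R, IsUnit ((algebraMap R (Module.End R K)) x) := by
    intro x
    have hx : algebraMap R K x ≠ 0 := by
      have := nonZeroDivisors.ne_zero x.2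
      simpa using this
    rw [Module.End.isUnit_iff]
    constructor
    · intro a b h
      simp only [Module.algebraMap_end_apply, Algebra.smul_def] at h
      exact mul_left_cancel₀ hx h
    · intro b
      refine ⟨(algebraMap R K x)⁻¹ * b, ?_⟩
      simp only [Module.algebraMap_end_apply, Algebra.smul_def]
      field_simp
  let L : Ω[K⁄k] →ₗ[R] K := IsLocalizedModule.lift (nonZeroDivisors R)
    (KaehlerDifferential.map k k R K) d.liftKaehlerDifferential hu
  let L' : Ω[K⁄k] →ₗ[K] K := L.extendScalarsOfIsLocalization (nonZeroDivisors R) K
  refine ⟨L'.compDer (KaehlerDifferential.D k K), fun r => ?_⟩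
  have h1 : KaehlerDifferential.D k K (algebraMap R K r)
      = KaehlerDifferential.map k k R K (KaehlerDifferential.D k R r) := by simp
  have h2 : L (KaehlerDifferential.map k k R K (KaehlerDifferential.D k R r))
      = d.liftKaehlerDifferential (KaehlerDifferential.D k R r) :=
    IsLocalizedModule.lift_apply _ _ _ _ _
  have h3 : d.liftKaehlerDifferential (KaehlerDifferential.D k R r) = d r :=
    d.liftKaehlerDifferential_comp_D r
  change L (KaehlerDifferential.D k K (algebraMap R K r)) = d r
  rw [h1, h2, h3]

end Q36.ZS
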