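import Mathlib

/-! The local ring at a prime element of a factorial domain, inside its field of fractions. -/

namespace Q36.ZS

variable {R K : Type} [CommRing R] [IsDomain R] [Field K]

/-- `z` is a fraction whose denominator is not divisible by `π` -/
def Reg (φ : R →+* K) (π : R) (z : K) : Prop := ∃ a b : R, ¬ π ∣ b ∧ z * φ b = φ a

/-- moreover the numerator is divisible by `π` -/
def Sm (φ : R →+* K) (π : R) (z : K) : Prop := ∃ a b : R, ¬ π ∣ b ∧ π ∣ a ∧ z * φ b = φ a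

variable {φ : R →+* K} {π : R}

theorem Sm.reg {z : K} (h : Sm φ π z) : Reg φ π z := by
  obtain ⟨a, b, h1, -, h3⟩ := h
  exact ⟨a, b, h1, h3⟩

theorem reg_map (hπ : Prime π) (r : R) : Reg φ π (φ r) :=
  ⟨r, 1, fun h => hπ.not_unit (isUnit_of_dvd_one h), by simp⟩

theorem reg_zero (hπ : Prime π) : Reg φ π (0 : K) := by simpa using reg_map (φ := φ) hπ 0

theorem reg_one (hπ : Prime π) : Reg φ π (1 : K) := by simpa using reg_map (φ := φ) hπ 1

theorem sm_zero (hπ : Prime π) : Sm φ π (0 : K) :=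
  ⟨0, 1, fun h => hπ.not_unit (isUnit_of_dvd_one h), dvd_zero _, by simp⟩

theorem Reg.add (hπ : Prime π) {z w : K} (hz : Reg φ π z) (hw : Reg φ π w) : Reg φ π (z + w) := by
  obtain ⟨a, b, h1, h2⟩ := hz
  obtain ⟨c, d, h3, h4⟩ := hw
  refine ⟨a * d + c * b, b * d, fun h => (hπ.dvd_or_dvd h).elim h1 h3, ?_⟩
  simp only [map_mul, map_add]
  linear_combination φ d * h2 + φ b * h4

theorem Reg.mul (hπ : Prime π) {z w : K} (hz : Reg φ π z) (hw : Reg φ π w) : Reg φ π (z * w) := by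
  obtain ⟨a, b, h1, h2⟩ := hz
  obtain ⟨c, d, h3, h4⟩ := hw
  refine ⟨a * c, b * d, fun h => (hπ.dvd_or_dvd h).elim h1 h3, ?_⟩
  simp only [map_mul]
  linear_combination w * φ d * h2 + φ a * h4

theorem Reg.neg (hπ : Prime π) {z : K} (hz : Reg φ π z) : Reg φ π (-z) := by
  obtain ⟨a, b, h1, h2⟩ := hz
  exact ⟨-a, b, h1, by rw [map_neg]; linear_combination -h2⟩

theorem Reg.sub (hπ : Prime π) {z w : K} (hz : Reg φ π z) (hw : Reg φ π w) : Reg φ π (z - w) := by
  rw [sub_eq_add_neg]; exact hz.add hπ (hw.neg hπ)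

theorem Reg.pow (hπ : Prime π) {z : K} (hz : Reg φ π z) (n : ℕ) : Reg φ π (z ^ n) := by
  induction n with
  | zero => simpa using reg_one hπ
  | succ n ih => rw [pow_succ]; exact ih.mul hπ hz

theorem Sm.add (hπ : Prime π) {z w : K} (hz : Sm φ π z) (hw : Sm φ π w) : Sm φ π (z + w) := by
  obtain ⟨a, b, h1, h5, h2⟩ := hz
  obtain ⟨c, d, h3, h6, h4⟩ := hw
  refine ⟨a * d + c * b, b * d, fun h => (hπ.dvd_or_dvd h).elim h1 h3,
    dvd_add (h5.mul_right _) (h6.mul_right _), ?_⟩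
  simp only [map_mul, map_add]
  linear_combination φ d * h2 + φ b * h4

theorem Sm.mul (hπ : Prime π) {z w : K} (hz : Reg φ π z) (hw : Sm φ π w) : Sm φ π (z * w) := by
  obtain ⟨a, b, h1, h2⟩ := hz
  obtain ⟨c, d, h3, h6, h4⟩ := hw
  refine ⟨a * c, b * d, fun h => (hπ.dvd_or_dvd h).elim h1 h3, h6.mul_left _, ?_⟩
  simp only [map_mul]
  linear_combination w * φ d * h2 + φ a * h4

theorem Sm.neg (hπ : Prime π) {z : K} (hz : Sm φ π z) : Sm φ π (-z) := by
  obtain ⟨a, b, h1, h5, h2⟩ := hz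
  exact ⟨-a, b, h1, h5.neg_right, by rw [map_neg]; linear_combination -h2⟩

theorem Sm.pow (hπ : Prime π) {z : K} (hz : Sm φ π z) {n : ℕ} (hn : n ≠ 0) : Sm φ π (z ^ n) := by
  obtain ⟨m, rfl⟩ := Nat.exists_eq_succ_of_ne_zero hn
  rw [pow_succ]
  exact Sm.mul hπ (hz.reg.pow hπ m) hz

theorem not_sm_one (hφ : Function.Injective φ) (hπ : Prime π) : ¬ Sm φ π (1 : K) := by
  rintro ⟨a, b, h1, h2, h3⟩
  rw [one_mul] at h3
  exact h1 (hφ h3 ▸ h2)

theorem Reg.inv (hφ : Function.Injective φ) (hπ : Prime π) {z : K} (hz : Reg φ π z)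
    (h : ¬ Sm φ π z) : Reg φ π z⁻¹ := by
  obtain ⟨a, b, h1, h2⟩ := hz
  have ha : ¬ π ∣ a := fun hh => h ⟨a, b, h1, hh, h2⟩
  have ha0 : φ a ≠ 0 := fun h0 => ha (by rw [(map_eq_zero_iff φ hφ).1 h0]; exact dvd_zero _)
  have hz0 : z ≠ 0 := by rintro rfl; exact ha0 (by rw [← h2, zero_mul])
  refine ⟨b, a, ha, ?_⟩
  rw [← h2]
  field_simp

theorem reg_or_inv [UniqueFactorizationMonoid R] (hφ : Function.Injective φ)
    (hf : ∀ z : K, ∃ a b : R, b ≠ 0 ∧ z * φ b = φ a) (hπ : Prime π) (z : K) :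
    Reg φ π z ∨ Reg φ π z⁻¹ := by
  obtain ⟨a, b, hb, hz⟩ := hf z
  by_cases ha : a = 0
  · left
    have hb0 : φ b ≠ 0 := fun h0 => hb ((map_eq_zero_iff φ hφ).1 h0)
    have : z = 0 := by
      rw [ha, map_zero] at hz
      exact (mul_eq_zero.1 hz).resolve_right hb0
    rw [this]; exact reg_zero hπ
  obtain ⟨m, a', ha', rfl⟩ := WfDvdMonoid.max_power_factor ha hπ.irreducible
  obtain ⟨n, b', hb', rfl⟩ := WfDvdMonoid.max_power_factor hb hπ.irreducible
  have h0 : φ π ≠ 0 := fun h0 => hπ.ne_zero ((map_eq_zero_iff φ hφ).1 h0)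
  have hb0 : φ b' ≠ 0 := fun h0 => hb' (by rw [(map_eq_zero_iff φ hφ).1 h0]; exact dvd_zero _)
  have ha0 : φ a' ≠ 0 := fun h0 => ha' (by rw [(map_eq_zero_iff φ hφ).1 h0]; exact dvd_zero _)
  simp only [map_mul, map_pow] at hz
  rcases le_total n m with h | h
  · left
    obtain ⟨c, rfl⟩ := Nat.exists_eq_add_of_le h
    refine ⟨π ^ c * a', b', hb', ?_⟩
    simp only [map_mul, map_pow]
    apply mul_left_cancel₀ (pow_ne_zero n h0)
    linear_combination hz
  · right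
    obtain ⟨c, rfl⟩ := Nat.exists_eq_add_of_le h
    refine ⟨π ^ c * b', a', ha', ?_⟩
    simp only [map_mul, map_pow]
    have hz0 : z ≠ 0 := by
      rintro rfl
      rw [zero_mul] at hz
      exact (mul_ne_zero (pow_ne_zero m h0) ha0) hz.symm
    rw [inv_mul_eq_iff_eq_mul₀ hz0]
    apply mul_left_cancel₀ (pow_ne_zero m h0)
    linear_combination -hz

theorem reg_der {D : K → K} (hadd : ∀ z w, D (z * w) = D z * w + z * D w)
    (hR : ∀ r : R, ∃ r' : R, D (φ r) = φ r') (hπ : Prime π) {z : K} (hz : Reg φ π z) :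
    Reg φ π (D z) := by
  obtain ⟨a, b, h1, h2⟩ := hz
  obtain ⟨a', ha'⟩ := hR a
  obtain ⟨b', hb'⟩ := hR b
  refine ⟨a' * b - a * b', b * b, fun h => (hπ.dvd_or_dvd h).elim h1 h1, ?_⟩
  have h3 := hadd z (φ b)
  rw [h2, ha', hb'] at h3
  simp only [map_mul, map_sub]
  linear_combination -(φ b) * h3 - φ b' * h2

theorem range_of_reg [UniqueFactorizationMonoid R] (hφ : Function.Injective φ)
    (hf : ∀ z : K, ∃ a b : R, b ≠ 0 ∧ z * φ b = φ a) {z : K}
    (h : ∀ π : R, Prime π → Reg φ π z) : ∃ a, z = φ a := by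
  classical
  obtain ⟨a, b, hb, hz⟩ := hf z
  -- remove common factors
  obtain ⟨a', b', c, hab, rfl, rfl⟩ := UniqueFactorizationMonoid.exists_reduced_factors' a b hb
  have hc : φ c ≠ 0 := fun h0 => hb (by rw [(map_eq_zero_iff φ hφ).1 h0, zero_mul])
  simp only [map_mul] at hz
  have hz' : z * φ b' = φ a' := by
    apply mul_left_cancel₀ hc
    linear_combination hz
  have hb0 : b' ≠ 0 := right_ne_zero_of_mul hb
  by_cases hu : IsUnit b'
  · obtain ⟨e, he⟩ := hu.exists_right_inv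
    refine ⟨a' * e, ?_⟩
    rw [map_mul, ← hz', mul_assoc, ← map_mul, he, map_one, mul_one]
  · exfalso
    obtain ⟨q, hq, hqb⟩ := WfDvdMonoid.exists_irreducible_factor hu hb0
    have hqp : Prime q := UniqueFactorizationMonoid.irreducible_iff_prime.1 hq
    obtain ⟨s, t, ht, hst⟩ := h q hqp
    have h1 : a' * t = s * b' := hφ (by
      simp only [map_mul]
      rw [← hz', ← hst]; ring)
    have h2 : q ∣ a' * t := h1 ▸ hqb.mul_left _
    rcases hqp.dvd_or_dvd h2 with h3 | h3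
    · exact hq.not_isUnit (hab h3 hqb)
    · exact ht h3

end Q36.ZS
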