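import Mathlib
import Pool.Agent.Q36.ZS.Rg

/-! Valuation rings of the field of rational functions in two variables. -/

namespace Q36.ZS

open MvPolynomial

section pi

variable {R K : Type} [CommRing R] [IsDomain R] [Field K] [UniqueFactorizationMonoid R]
  {φ : R →+* K} {π : R}

/-- the local ring at a prime element -/
def piRing (hφ : Function.Injective φ) (hf : ∀ z : K, ∃ a b : R, b ≠ 0 ∧ z * φ b = φ a)
    (hπ : Prime π) : ValuationSubring K where
  carrier := {z | Reg φ π z}
  mul_mem' := fun h1 h2 => Reg.mul hπ h1 h2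
  one_mem' := reg_one hπ
  add_mem' := fun h1 h2 => Reg.add hπ h1 h2
  zero_mem' := reg_zero hπ
  neg_mem' := fun h => Reg.neg hπ h
  mem_or_inv_mem' := fun z => reg_or_inv hφ hf hπ z

theorem mem_piRing (hφ : Function.Injective φ) (hf : ∀ z : K, ∃ a b : R, b ≠ 0 ∧ z * φ b = φ a)
    (hπ : Prime π) (z : K) : z ∈ piRing hφ hf hπ ↔ Reg φ π z := Iff.rfl

end pi

section inf

variable {k K : Type} [Field k] [Field K] {φ : MvPolynomial (Fin 2) k →+* K}

/-- fractions of nonpositive degree in the first variable -/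
def InfReg (φ : MvPolynomial (Fin 2) k →+* K) (z : K) : Prop :=
  ∃ a b : MvPolynomial (Fin 2) k, b ≠ 0 ∧ a.degreeOf 0 ≤ b.degreeOf 0 ∧ z * φ b = φ a

/-- the valuation ring at infinity for the first variable -/
def infRing (hf : ∀ z : K, ∃ a b : MvPolynomial (Fin 2) k, b ≠ 0 ∧ z * φ b = φ a) :
    ValuationSubring K where
  carrier := {z | InfReg φ z}
  mul_mem' := by
    rintro z w ⟨a, b, h1, h2, h3⟩ ⟨c, d, h4, h5, h6⟩
    refine ⟨a * c, b * d, mul_ne_zero h1 h4, ?_, ?_⟩
    · rw [degreeOf_mul_eq h1 h4]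
      exact (degreeOf_mul_le _ _ _).trans (add_le_add h2 h5)
    · simp only [map_mul]
      linear_combination w * φ d * h3 + φ a * h6
  one_mem' := ⟨1, 1, one_ne_zero, le_rfl, by simp⟩
  add_mem' := by
    rintro z w ⟨a, b, h1, h2, h3⟩ ⟨c, d, h4, h5, h6⟩
    refine ⟨a * d + c * b, b * d, mul_ne_zero h1 h4, ?_, ?_⟩
    · rw [degreeOf_mul_eq h1 h4]
      refine (degreeOf_add_le _ _ _).trans (max_le ?_ ?_)
      · exact (degreeOf_mul_le _ _ _).trans (add_le_add h2 le_rfl)
      · refine (degreeOf_mul_le _ _ _).trans ?_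
        rw [add_comm]
        exact add_le_add le_rfl h5
    · simp only [map_mul, map_add]
      linear_combination φ d * h3 + φ b * h6
  zero_mem' := ⟨0, 1, one_ne_zero, by simp, by simp⟩
  neg_mem' := by
    rintro z ⟨a, b, h1, h2, h3⟩
    refine ⟨-a, b, h1, by rwa [degreeOf_neg], ?_⟩
    rw [map_neg]
    linear_combination -h3
  mem_or_inv_mem' := by
    intro z
    obtain ⟨a, b, h1, h3⟩ := hf z
    rcases le_total (a.degreeOf 0) (b.degreeOf 0) with h | h
    · exact Or.inl ⟨a, b, h1, h, h3⟩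
    · by_cases hz : z = 0
      · exact Or.inl ⟨0, 1, one_ne_zero, by simp, by simp [hz]⟩
      · by_cases ha : a = 0
        · refine Or.inl ⟨0, b, h1, by simp, ?_⟩
          rw [h3, ha]
        · refine Or.inr ⟨b, a, ha, h, ?_⟩
          rw [inv_mul_eq_iff_eq_mul₀ hz, h3]

theorem mem_infRing (hf : ∀ z : K, ∃ a b : MvPolynomial (Fin 2) k, b ≠ 0 ∧ z * φ b = φ a)
    (z : K) : z ∈ infRing hf ↔ InfReg φ z := Iff.rfl

theorem infReg_der {D : K → K} (hadd : ∀ z w, D (z * w) = D z * w + z * D w)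
    (hR : ∀ r : MvPolynomial (Fin 2) k, ∃ r' : MvPolynomial (Fin 2) k,
      D (φ r) = φ r' ∧ r'.degreeOf 0 ≤ r.degreeOf 0) {z : K} (hz : InfReg φ z) :
    InfReg φ (D z) := by
  obtain ⟨a, b, h1, h0, h2⟩ := hz
  obtain ⟨a', ha', ha⟩ := hR a
  obtain ⟨b', hb', hb⟩ := hR b
  refine ⟨a' * b - a * b', b * b, mul_ne_zero h1 h1, ?_, ?_⟩
  · rw [degreeOf_mul_eq h1 h1]
    refine (degreeOf_sub_le _ _ _).trans (max_le ?_ ?_)
    · exact (degreeOf_mul_le _ _ _).trans (add_le_add (ha.trans h0) le_rfl)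
    · exact (degreeOf_mul_le _ _ _).trans (add_le_add h0 hb)
  · have h3 := hadd z (φ b)
    rw [h2, ha', hb'] at h3
    simp only [map_mul, map_sub]
    linear_combination -(φ b) * h3 - φ b' * h2

theorem degreeOf_sum_le' {ι : Type} (s : Finset ι) (f : ι → MvPolynomial (Fin 2) k) (n : ℕ)
    (h : ∀ i ∈ s, (f i).degreeOf 0 ≤ n) : (∑ i ∈ s, f i).degreeOf 0 ≤ n := by
  classical
  induction s using Finset.induction_on with
  | empty => simp
  | insert a s ha ih =>
    rw [Finset.sum_insert ha]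
    refine (degreeOf_add_le _ _ _).trans (max_le (h a (Finset.mem_insert_self _ _)) ?_)
    exact ih fun i hi => h i (Finset.mem_insert_of_mem hi)

theorem degreeOf_pderiv_one (f : MvPolynomial (Fin 2) k) :
    (pderiv 1 f).degreeOf 0 ≤ f.degreeOf 0 := by
  classical
  conv_lhs => rw [f.as_sum, map_sum]
  apply degreeOf_sum_le'
  intro m hm
  rw [pderiv_monomial]
  by_cases hc : coeff m f * (m 1 : k) = 0
  · rw [hc, monomial_zero, degreeOf_zero]; exact Nat.zero_le _
  · rw [degreeOf_monomial_eq _ _ hc]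
    have := monomial_le_degreeOf 0 hm
    simpa using this

theorem degreeOf_pderiv_zero (f : MvPolynomial (Fin 2) k) :
    (X 0 * pderiv 0 f).degreeOf 0 ≤ f.degreeOf 0 := by
  classical
  conv_lhs => rw [f.as_sum, map_sum, Finset.mul_sum]
  apply degreeOf_sum_le'
  intro m hm
  rw [pderiv_monomial]
  by_cases hc : coeff m f * (m 0 : k) = 0
  · rw [hc, monomial_zero, mul_zero, degreeOf_zero]; exact Nat.zero_le _
  · have h0 : m 0 ≠ 0 := by
      intro h; apply hc; rw [h]; simp
    rw [X, monomial_mul, one_mul, degreeOf_monomial_eq _ _ hc]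
    have := monomial_le_degreeOf 0 hm
    simp
    omega

/-- a polynomial divisible by the first variable and regular at infinity is zero -/
theorem eq_zero_of_infReg (hφ : Function.Injective φ) {P : MvPolynomial (Fin 2) k}
    (h : InfReg φ (φ (X 0 * P))) : P = 0 := by
  obtain ⟨a, b, h1, h2, h3⟩ := h
  by_contra hP
  rw [← map_mul] at h3
  have h4 := hφ h3
  rw [← h4, degreeOf_mul_eq (mul_ne_zero (X_ne_zero _) hP) h1, degreeOf_mul_eq (X_ne_zero _) hP]
    at h2
  have h5 : (X 0 : MvPolynomial (Fin 2) k).degreeOf 0 = 1 := degreeOf_X_self 0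
  omega

end inf

end Q36.ZS
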