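import Mathlib
import Pool.Agent.Q36.ZS.Lc
import Pool.Agent.Q36.ZS.Vl
import Pool.Agent.Q36.ZS.Co

/-! The function field of the surface is not purely transcendental. -/

namespace Q36.ZS

open MvPolynomial

variable {k K : Type} [Field k] [Field K] [Algebra k K]

theorem der_rel (p : ℕ) [CharP K p] (D : Derivation k K K) {x y : Fin 3 → K}
    (h1 : ∑ i, x i * y i ^ p = 0) (h2 : ∑ i, x i ^ p * y i = 0) (hx : x 0 = 1) (hy : y 2 = 1) :
    D (x 1) * y 1 ^ p + D (x 2) = 0 ∧ D (y 0) + x 1 ^ p * D (y 1) = 0 := by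
  have sq : ∀ (z : K), D (z ^ p) = 0 := by
    intro z
    rw [D.leibniz_pow]
    simp [← Nat.cast_smul_eq_nsmul K]
  constructor
  · have := congrArg D h1
    simp only [Fin.sum_univ_three, map_add, D.leibniz, sq, smul_eq_mul, hx, hy, map_zero] at this
    simp at this
    linear_combination this
  · have := congrArg D h2
    simp only [Fin.sum_univ_three, map_add, D.leibniz, sq, smul_eq_mul, hx, hy, map_zero] at this
    simp at this
    linear_combination this

/-- the field of constants of a derivation -/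
def constField (D : Derivation k K K) : IntermediateField k K where
  carrier := {z | D z = 0}
  mul_mem' := by
    intro a b ha hb
    simp only [Set.mem_ofPred_eq] at ha hb ⊢
    rw [D.leibniz, ha, hb]; simp
  add_mem' := by
    intro a b ha hb
    simp only [Set.mem_ofPred_eq] at ha hb ⊢
    rw [map_add, ha, hb, add_zero]
  algebraMap_mem' := by
    intro r
    simp
  inv_mem' := by
    intro a ha
    simp only [Set.mem_ofPred_eq] at ha ⊢
    by_cases h : a = 0
    · rw [h, inv_zero, map_zero]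
    · have h1 : D (a * a⁻¹) = 0 := by rw [mul_inv_cancel₀ h]; simp
      rw [D.leibniz, ha] at h1
      simpa [h] using h1

theorem der_zero (p : ℕ) [CharP K p] (D : Derivation k K K) {x y : Fin 3 → K}
    (h1 : ∑ i, x i * y i ^ p = 0) (h2 : ∑ i, x i ^ p * y i = 0) (hx : x 0 = 1) (hy : y 2 = 1)
    (hgen : IntermediateField.adjoin k {x 1, x 2, y 0, y 1} = ⊤) (ha : D (x 1) = 0)
    (hw : D (y 1) = 0) (z : K) : D z = 0 := by
  obtain ⟨e1, e2⟩ := der_rel p D h1 h2 hx hy
  rw [ha] at e1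
  rw [hw] at e2
  have h : IntermediateField.adjoin k {x 1, x 2, y 0, y 1} ≤ constField D := by
    rw [IntermediateField.adjoin_le_iff]
    rintro z (rfl | rfl | rfl | rfl)
    · exact ha
    · have : D (x 2) = 0 := by simpa using e1
      exact this
    · have : D (y 0) = 0 := by simpa using e2
      exact this
    · exact hw
  rw [hgen] at h
  exact h (x := z) trivial

/-- the two basic derivations detect the surface -/
theorem jac_ne (p : ℕ) [CharP K p] (D0 D1 : Derivation k K K) {x y : Fin 3 → K}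
    (h1 : ∑ i, x i * y i ^ p = 0) (h2 : ∑ i, x i ^ p * y i = 0) (hx : x 0 = 1) (hy : y 2 = 1)
    (hgen : IntermediateField.adjoin k {x 1, x 2, y 0, y 1} = ⊤) {u v : K}
    (h00 : D0 u = 1) (h01 : D0 v = 0) (h10 : D1 u = 0) (h11 : D1 v = 1) :
    D0 (x 1) * D1 (y 1) - D1 (x 1) * D0 (y 1) ≠ 0 := by
  intro h0
  have z1 := der_zero p (D1 (x 1) • D0 - D0 (x 1) • D1) h1 h2 hx hy hgen
    (by simp; ring) (by simp; linear_combination -h0)
  have a1 := z1 u
  have a2 := z1 v
  simp [h00, h10] at a1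
  simp [h01, h11] at a2
  have z2 := der_zero p (D1 (y 1) • D0 - D0 (y 1) • D1) h1 h2 hx hy hgen
    (by simp [a1, a2]) (by simp; ring)
  have b1 := z2 u
  have b2 := z2 v
  simp [h00, h10] at b1
  simp [h01, h11] at b2
  have z3 := der_zero p D0 h1 h2 hx hy hgen a2 b2 u
  rw [h00] at z3
  exact one_ne_zero z3

theorem exists_pd {f : Fin 2 → K} (hf : AlgebraicIndependent k f)
    (htop : IntermediateField.adjoin k (Set.range f) = ⊤) (i : Fin 2) :
    ∃ D : Derivation k K K, ∀ r : MvPolynomial (Fin 2) k, D (aeval f r) = aeval f (pderiv i r) := by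
  let _ : Algebra (MvPolynomial (Fin 2) k) K := (aeval f).toRingHom.toAlgebra
  have hal : ∀ r, algebraMap (MvPolynomial (Fin 2) k) K r = aeval f r := fun r => rfl
  have : IsScalarTower k (MvPolynomial (Fin 2) k) K := IsScalarTower.of_algebraMap_eq fun r => by
    rw [hal, algebraMap_eq, aeval_C]
  have : FaithfulSMul (MvPolynomial (Fin 2) k) K :=
    (faithfulSMul_iff_algebraMap_injective _ _).2 hf
  have hfr : IsFractionRing (MvPolynomial (Fin 2) k) K := by
    refine IsFractionRing.of_field _ _ fun z => ?_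
    have hz : z ∈ IntermediateField.adjoin k (Set.range f) := by rw [htop]; trivial
    obtain ⟨r, s, h⟩ := (IntermediateField.mem_adjoin_range_iff k f z).1 hz
    exact ⟨r, s, h⟩
  obtain ⟨D, hD⟩ := exists_der (k := k) (R := MvPolynomial (Fin 2) k) (K := K)
    ((Algebra.linearMap (MvPolynomial (Fin 2) k) K).compDer (pderiv i))
  exact ⟨D, fun r => by rw [← hal, hD]; rfl⟩

theorem frac_of_top {f : Fin 2 → K} (hf : AlgebraicIndependent k f)
    (htop : IntermediateField.adjoin k (Set.range f) = ⊤) (z : K) :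
    ∃ a b : MvPolynomial (Fin 2) k, b ≠ 0 ∧ z * aeval f b = aeval f a := by
  have hz : z ∈ IntermediateField.adjoin k (Set.range f) := by rw [htop]; trivial
  obtain ⟨r, s, h⟩ := (IntermediateField.mem_adjoin_range_iff k f z).1 hz
  by_cases hs : s = 0
  · refine ⟨0, 1, one_ne_zero, ?_⟩
    rw [h, hs]; simp
  · refine ⟨r, s, hs, ?_⟩
    have : aeval f s ≠ 0 := fun h0 => hs ((map_eq_zero_iff _ hf).1 h0)
    rw [h]; field_simp

theorem not_rational (p : ℕ) [CharP K p] (hp : 2 ≤ p) {x y : Fin 3 → K}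
    (h1 : ∑ i, x i * y i ^ p = 0) (h2 : ∑ i, x i ^ p * y i = 0) (hx : x 0 = 1) (hy : y 2 = 1)
    (hgen : IntermediateField.adjoin k {x 1, x 2, y 0, y 1} = ⊤)
    {f : Fin 2 → K} (hf : AlgebraicIndependent k f)
    (htop : IntermediateField.adjoin k (Set.range f) = ⊤) : False := by
  obtain ⟨D0, hD0⟩ := exists_pd hf htop 0
  obtain ⟨D1, hD1⟩ := exists_pd hf htop 1
  have hfr := frac_of_top hf htop
  set φ : MvPolynomial (Fin 2) k →+* K := (aeval f).toRingHom with hφd
  have hφ : Function.Injective φ := hf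
  have hφa : ∀ r, φ r = aeval f r := fun r => rfl
  have hfr' : ∀ z : K, ∃ a b : MvPolynomial (Fin 2) k, b ≠ 0 ∧ z * φ b = φ a := hfr
  have hpi : ∀ (D D' : Derivation k K K),
      (∀ r, ∃ r', D (φ r) = φ r') → (∀ r, ∃ r', D' (φ r) = φ r') →
      ∃ P, D (x 1) * D' (y 1) = φ P := by
    intro D D' hD hD'
    apply range_of_reg hφ hfr'
    intro π hπ
    rw [← mem_piRing hφ hfr' hπ]
    have := core_mem (piRing hφ hfr' hπ) p D D' (fun z hz => reg_der (D := D)
      (fun z w => by rw [D.leibniz]; simp [mul_comm]; ring) hD hπ hz)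
      (fun z hz => reg_der (D := D')
      (fun z w => by rw [D'.leibniz]; simp [mul_comm]; ring) hD' hπ hz)
      h1 h2 hx hy (c := 0) (fun j _ _ => by rw [mul_zero]; exact zero_mem _) 0 (p - 2) (by omega)
    simpa using this
  have r0 : ∀ r, ∃ r', D0 (φ r) = φ r' := fun r => ⟨_, hD0 r⟩
  have r1 : ∀ r, ∃ r', D1 (φ r) = φ r' := fun r => ⟨_, hD1 r⟩
  obtain ⟨P, hP⟩ := hpi D0 D1 r0 r1
  obtain ⟨Q, hQ⟩ := hpi D1 D0 r1 r0
  have hu : φ (X 0) = f 0 := by rw [hφa, aeval_X]
  have i0 : ∀ z ∈ infRing hfr', (f 0 • D0) z ∈ infRing hfr' := fun z hz =>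
    infReg_der (D := (f 0 • D0 : Derivation k K K))
      (fun z w => by simp only [Derivation.leibniz, smul_eq_mul]; ring)
      (fun r => ⟨X 0 * pderiv 0 r, by
        rw [map_mul, hu, hφa, hφa, ← hD0]; rfl, degreeOf_pderiv_zero r⟩) hz
  have i1 : ∀ z ∈ infRing hfr', D1 z ∈ infRing hfr' := fun z hz =>
    infReg_der (D := D1)
      (fun z w => by simp only [Derivation.leibniz, smul_eq_mul]; ring)
      (fun r => ⟨pderiv 1 r, hD1 r, degreeOf_pderiv_one r⟩) hz
  have e1 := core_mem (infRing hfr') p (f 0 • D0) D1 i0 i1 h1 h2 hx hy (c := 0)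
    (fun j _ _ => by rw [mul_zero]; exact zero_mem _) 0 (p - 2) (by omega)
  have e2 := core_mem (infRing hfr') p D1 (f 0 • D0) i1 i0 h1 h2 hx hy (c := 0)
    (fun j _ _ => by rw [mul_zero]; exact zero_mem _) 0 (p - 2) (by omega)
  have hP0 : P = 0 := eq_zero_of_infReg hφ (by
    rw [← mem_infRing hfr', map_mul, ← hP, hu]
    have : f 0 * (D0 (x 1) * D1 (y 1)) = (f 0 • D0) (x 1) * D1 (y 1) * 0 ^ 0 := by
      simp; ring
    rw [this]; exact e1)
  have hQ0 : Q = 0 := eq_zero_of_infReg hφ (by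
    rw [← mem_infRing hfr', map_mul, ← hQ, hu]
    have : f 0 * (D1 (x 1) * D0 (y 1)) = D1 (x 1) * (f 0 • D0) (y 1) * 0 ^ 0 := by
      simp; ring
    rw [this]; exact e2)
  have hX : ∀ i, aeval f (X i : MvPolynomial (Fin 2) k) = f i := fun i => aeval_X f i
  have h00 : D0 (f 0) = 1 := by rw [← hX 0, hD0, pderiv_X_self, map_one]
  have h01 : D0 (f 1) = 0 := by rw [← hX 1, hD0, pderiv_X_of_ne (by decide), map_zero]
  have h10 : D1 (f 0) = 0 := by rw [← hX 0, hD1, pderiv_X_of_ne (by decide), map_zero]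
  have h11 : D1 (f 1) = 1 := by rw [← hX 1, hD1, pderiv_X_self, map_one]
  refine jac_ne p D0 D1 h1 h2 hx hy hgen h00 h01 h10 h11 ?_
  rw [hP, hQ, hP0, hQ0]; simp

end Q36.ZS
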