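import Mathlib
import Pool.Agent.Q36.ZS.Gn
import Pool.Agent.Q36.ZS.Nr

/-! The function field of the surface. -/

namespace Q36.ZS

open MvPolynomial

section generic

variable {k : Type} [Field k] {K : Type} [Field K] [Algebra k K]

/-- restriction of generators to the field they generate -/
theorem adjoin_restrict {ι : Type} (F : IntermediateField k K) (f : ι → F)
    (h : F = IntermediateField.adjoin k (Set.range fun i => (f i : K))) :
    IntermediateField.adjoin k (Set.range f) = ⊤ := by
  apply IntermediateField.map_injective F.val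
  rw [IntermediateField.adjoin_map, ← AlgHom.fieldRange_eq_map, IntermediateField.fieldRange_val,
    ← Set.range_comp]
  exact h.symm

theorem algInd_pow {n : ℕ} {f : Fin n → K} (hf : AlgebraicIndependent k f) {p : ℕ} (hp : p ≠ 0) :
    AlgebraicIndependent k (fun i => f i ^ p) := by
  have h := hf.polynomial_aeval_of_transcendental (f := fun _ => (Polynomial.X ^ p : Polynomial k))
    (fun i => by
      rw [transcendental_iff]
      intro q hq
      have hq' : Polynomial.expand k p q = 0 := hq
      exact (Polynomial.expand_eq_zero (Nat.pos_of_ne_zero hp)).1 hq')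
  simpa using h

/-- a purely inseparable extension of degree `p` -/
theorem finrank_insep {p : ℕ} (hp : p.Prime) [CharP K p] (E : IntermediateField k K) {w : K}
    (hw : w ∉ E) (hwp : w ^ p ∈ E) (htop : IntermediateField.adjoin E {w} = ⊤) :
    Module.finrank E K = p := by
  have : Fact p.Prime := ⟨hp⟩
  have hirr : Irreducible (Polynomial.X ^ p - Polynomial.C (⟨w ^ p, hwp⟩ : E)) := by
    apply X_pow_sub_C_irreducible_of_prime hp
    intro b hb
    apply hw
    have h1 : (b : K) ^ p = w ^ p := congrArg Subtype.val hb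
    have h2 : ((b : K) - w) ^ p = 0 := by rw [sub_pow_char, h1, sub_self]
    have h3 : (b : K) = w := sub_eq_zero.1 (pow_eq_zero_iff hp.ne_zero |>.1 h2)
    rw [← h3]; exact b.2
  have hmon : (Polynomial.X ^ p - Polynomial.C (⟨w ^ p, hwp⟩ : E)).Monic :=
    Polynomial.monic_X_pow_sub_C _ hp.ne_zero
  have hroot : Polynomial.aeval w (Polynomial.X ^ p - Polynomial.C (⟨w ^ p, hwp⟩ : E)) = 0 := by
    simp
  have hmin := minpoly.eq_of_irreducible_of_monic hirr hroot hmon
  have hint : IsIntegral E w := ⟨_, hmon, hroot⟩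
  have h4 := IntermediateField.adjoin.finrank hint
  rw [← hmin, Polynomial.natDegree_X_pow_sub_C] at h4
  rw [← h4, htop]
  exact (IntermediateField.topEquiv (F := E) (E := K)).symm.toLinearEquiv.finrank_eq

end generic

variable (k : Type) [Field k] (p : ℕ) [Fact p.Prime] [CharP k p]

theorem surface_field [IsAlgClosed k] :
    ∃ (K : Type) (_ : Field K) (_ : Algebra k K) (x y : Fin 3 → K),
      x 0 = 1 ∧ y 2 = 1 ∧ IntermediateField.adjoin k {x 1, x 2, y 0, y 1} = ⊤ ∧
      ∑ i, x i * y i ^ p = 0 ∧ ∑ i, x i ^ p * y i = 0 ∧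
      IsFunctionField (Locus (surface k p)) K x y ∧
      IsMapOfDegree k K 2 ![x 1 / x 0, x 2 / x 0] p := by
  have hp : p.Prime := Fact.out
  have hp0 : p ≠ 0 := hp.ne_zero
  let M := FractionRing (MvPolynomial (Fin 2) k)
  let e : MvPolynomial (Fin 2) k →+* M := algebraMap _ _
  have hinj : Function.Injective e := IsFractionRing.injective _ _
  have hcM : CharP M p := charP_of_injective_algebraMap (algebraMap k M).injective p
  set N : Fin 3 → MvPolynomial (Fin 2) k := cr (gpt k) (pw (p ^ 2) (gpt k)) with hN
  have hN2 : N 2 = X 0 ^ p ^ 2 - X 0 := by simp [hN, cr, gpt, pw]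
  have hN1 : N 1 = X 1 - X 1 ^ p ^ 2 := by simp [hN, cr, gpt, pw]
  have hN20 : e (N 2) ≠ 0 := by
    rw [Ne, map_eq_zero_iff e hinj, hN2]
    intro h0
    have h5 := congrArg (pderiv 0) h0
    rw [map_sub, Derivation.leibniz_pow, pderiv_X_self] at h5
    have h6 : ((p ^ 2 : ℕ) : MvPolynomial (Fin 2) k) = 0 := by
      rw [CharP.cast_eq_zero_iff (MvPolynomial (Fin 2) k) p]
      exact dvd_pow_self p two_ne_zero
    rw [← Nat.cast_smul_eq_nsmul (MvPolynomial (Fin 2) k), h6] at h5
    simp at h5
  set xM : Fin 3 → M := fun i => e (pw p (gpt k) i) with hxM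
  set yM : Fin 3 → M := fun i => e (N i) with hyM
  set zM : Fin 3 → M := (yM 2)⁻¹ • yM with hzM
  have hyM2 : yM 2 ≠ 0 := hN20
  -- the relations
  have r1 : dt xM (pw p zM) = 0 := by
    have h1 := dt_pw p 1 (fun i => e (gpt k i)) zM
    have h2 : dt (fun i => e (gpt k i)) zM = 0 := by
      have h3 := congrArg e (dt_cr_left (gpt k) (pw (p ^ 2) (gpt k)))
      rw [map_dt, map_zero] at h3
      have h4 : dt (fun i => e (gpt k i)) zM = (yM 2)⁻¹ * dt (fun i => e (gpt k i)) yM := by
        simp only [dt, hzM, Pi.smul_apply, smul_eq_mul]; ring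
      rw [h4]
      change _ * dt (fun i => e (gpt k i)) (fun i => e (cr (gpt k) (pw (p ^ 2) (gpt k)) i)) = 0
      rw [h3, mul_zero]
    rw [h2, pow_one, zero_pow hp0] at h1
    have h5 : pw p (fun i => e (gpt k i)) = xM := by
      funext i; simp [pw, hxM]
    rw [h5] at h1
    exact h1
  have r2 : dt (pw p xM) zM = 0 := by
    have h3 := congrArg e (dt_cr_right (gpt k) (pw (p ^ 2) (gpt k)))
    rw [map_dt, map_zero] at h3
    have h5 : pw p xM = fun i => e (pw (p ^ 2) (gpt k) i) := by
      funext i; simp only [pw, hxM, map_pow]; rw [← pow_mul, pow_two]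
    have h4 : dt (pw p xM) zM = (yM 2)⁻¹ * dt (pw p xM) yM := by
      simp only [dt, hzM, Pi.smul_apply, smul_eq_mul]; ring
    rw [h4, h5]
    change _ * dt (fun i => e (pw (p ^ 2) (gpt k) i))
      (fun i => e (cr (gpt k) (pw (p ^ 2) (gpt k)) i)) = 0
    rw [h3, mul_zero]
  have hx0 : xM 0 = 1 := by simp [hxM, pw, gpt]
  have hz2 : zM 2 = 1 := by simp only [hzM, Pi.smul_apply, smul_eq_mul]; exact inv_mul_cancel₀ hyM2
  let g : Fin 4 → M := ![xM 1, xM 2, zM 0, zM 1]
  let F : IntermediateField k M := IntermediateField.adjoin k (Set.range g)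
  have hg : ∀ i, g i ∈ F := fun i => IntermediateField.subset_adjoin _ _ ⟨i, rfl⟩
  have hcF : CharP F p := charP_of_injective_algebraMap (algebraMap k F).injective p
  let x : Fin 3 → F := ![1, ⟨xM 1, hg 0⟩, ⟨xM 2, hg 1⟩]
  let y : Fin 3 → F := ![⟨zM 0, hg 2⟩, ⟨zM 1, hg 3⟩, 1]
  have hxv : ∀ i, (x i : M) = xM i := by
    intro i; fin_cases i
    · exact hx0.symm
    · rfl
    · rfl
  have hyv : ∀ i, (y i : M) = zM i := by
    intro i; fin_cases i
    · rfl
    · rfl
    · exact hz2.symm
  have hgen : IntermediateField.adjoin k {x 1, x 2, y 0, y 1} = ⊤ := by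
    have h1 := adjoin_restrict F (![x 1, x 2, y 0, y 1] : Fin 4 → F) (by
      change IntermediateField.adjoin k (Set.range g) = _
      congr 2
      funext i; fin_cases i <;> rfl)
    have h2 : Set.range (![x 1, x 2, y 0, y 1] : Fin 4 → F) = {x 1, x 2, y 0, y 1} := by
      simp only [Matrix.range_cons, Matrix.range_empty, Set.union_empty]
      rfl
    rwa [h2] at h1
  have s1 : ∑ i, x i * y i ^ p = 0 := by
    apply Subtype.ext
    have : ((∑ i, x i * y i ^ p : F) : M) = dt xM (pw p zM) := by
      simp [Fin.sum_univ_three, dt, pw, hxv, hyv]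
    rw [this, r1]; rfl
  have s2 : ∑ i, x i ^ p * y i = 0 := by
    apply Subtype.ext
    have : ((∑ i, x i ^ p * y i : F) : M) = dt (pw p xM) zM := by
      simp [Fin.sum_univ_three, dt, pw, hxv, hyv]
    rw [this, r2]; rfl
  -- a derivation
  obtain ⟨D, hD⟩ := exists_der (k := k) (R := MvPolynomial (Fin 2) k) (K := M)
    ((Algebra.linearMap (MvPolynomial (Fin 2) k) M).compDer (pderiv 1))
  have hD' : ∀ r, D (e r) = e (pderiv 1 r) := hD
  have hDp : ∀ z : M, D (z ^ p) = 0 := by
    intro z
    rw [D.leibniz_pow]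
    simp [← Nat.cast_smul_eq_nsmul M]
  have hDx : ∀ i, D (xM i) = 0 := by
    intro i
    simp only [hxM, pw, map_pow, hDp]
  have hDq : ∀ z : M, D (z ^ p ^ 2) = 0 := by
    intro z
    rw [pow_two, pow_mul, hDp]
  have hDw : D (zM 1) ≠ 0 := by
    have h1 : zM 1 * yM 2 = yM 1 := by
      simp only [hzM, Pi.smul_apply, smul_eq_mul]
      rw [mul_comm, ← mul_assoc, mul_inv_cancel₀ hyM2, one_mul]
    have h2 : D (yM 2) = 0 := by
      have h3 : yM 2 = e (X 0) ^ p ^ 2 - e (X 0) := by
        simp only [hyM]; rw [hN2, map_sub, map_pow]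
      rw [h3, map_sub, hDq, hD', pderiv_X_of_ne (by decide)]
      simp
    have h4 : D (yM 1) = 1 := by
      have h3 : yM 1 = e (X 1) - e (X 1) ^ p ^ 2 := by
        simp only [hyM]; rw [hN1, map_sub, map_pow]
      rw [h3, map_sub, hDq, hD', pderiv_X_self]
      simp
    intro h0
    have h5 := congrArg D h1
    rw [D.leibniz, h2, h0, h4] at h5
    simp at h5
  refine ⟨F, inferInstance, inferInstance, x, y, rfl, rfl, hgen, s1, s2, ⟨?_, ?_, ?_, ?_⟩, ?_⟩
  · intro h0
    have := congrFun h0 0
    exact one_ne_zero this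
  · intro h0
    have := congrFun h0 2
    exact one_ne_zero this
  · intro P m n hP
    rw [← gen_surface p hP]
    have h1 : ((aeval (Sum.elim x y) P : F) : M) = aeval (Sum.elim xM zM) P := by
      have h2 := comp_aeval_apply (f := Sum.elim x y) F.val P
      change F.val (aeval (Sum.elim x y) P) = _
      rw [h2]
      congr 2
      funext i
      rcases i with i | i
      · exact hxv i
      · exact hyv i
    have h3 := bihom_scale hP xM yM 1 (yM 2)⁻¹
    rw [one_smul] at h3
    have h4 : (Sum.elim xM yM) = fun i => e (ph p (gpt k) i) := by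
      funext i; rcases i with i | i <;> rfl
    have h5 : aeval (fun i => e (ph p (gpt k) i)) P = e (aeval (ph p (gpt k)) P) :=
      aeval_algebraMap_apply _ _ _
    rw [h4, h5] at h3
    have h6 : (yM 2)⁻¹ ≠ 0 := inv_ne_zero hyM2
    constructor
    · intro h0
      rw [h0] at h1
      have h7 : aeval (Sum.elim xM zM) P = 0 := h1.symm
      rw [h3] at h7
      rcases mul_eq_zero.1 h7 with h8 | h8
      · exfalso
        rcases mul_eq_zero.1 h8 with h9 | h9
        · simp at h9
        · exact pow_ne_zero _ h6 h9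
      · exact (map_eq_zero_iff e hinj).1 h8
    · intro h0
      apply Subtype.ext
      rw [h1]
      change aeval (Sum.elim xM ((yM 2)⁻¹ • yM)) P = 0
      rw [h3, h0, map_zero, mul_zero]
  · rw [eq_top_iff, ← hgen, IntermediateField.adjoin_le_iff]
    have hx0' : x 0 = 1 := rfl
    have hy2' : y 2 = 1 := rfl
    rintro z (rfl | rfl | rfl | rfl)
    · exact IntermediateField.subset_adjoin _ _ (Or.inl ⟨(1, 0), by simp [hx0']⟩)
    · exact IntermediateField.subset_adjoin _ _ (Or.inl ⟨(2, 0), by simp [hx0']⟩)
    · exact IntermediateField.subset_adjoin _ _ (Or.inr ⟨(0, 2), by simp [hy2']⟩)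
    · exact IntermediateField.subset_adjoin _ _ (Or.inr ⟨(1, 2), by simp [hy2']⟩)
  · have hx0' : x 0 = 1 := rfl
    rw [hx0', div_one, div_one]
    refine ⟨?_, hp.pos, ?_⟩
    · have h1 : AlgebraicIndependent k (fun i : Fin 2 => e (X i)) := by
        have h2 : aeval (fun i : Fin 2 => e (X i)) = (IsScalarTower.toAlgHom k
            (MvPolynomial (Fin 2) k) M) := by
          apply MvPolynomial.algHom_ext
          intro i
          rw [aeval_X]
          rfl
        unfold AlgebraicIndependent
        rw [h2]
        exact hinj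
      have h3 := algInd_pow h1 hp0
      have h4 : AlgebraicIndependent k (fun i => F.val ((![x 1, x 2] : Fin 2 → F) i)) := by
        have h5 : (fun i => F.val ((![x 1, x 2] : Fin 2 → F) i)) = fun i => e (X i) ^ p := by
          funext i
          fin_cases i
          · change xM 1 = _
            simp [hxM, pw, gpt]
          · change xM 2 = _
            simp [hxM, pw, gpt]
        rw [h5]
        exact h3
      exact h4.of_comp F.val
    · set E := IntermediateField.adjoin k (Set.range (![x 1, x 2] : Fin 2 → F)) with hE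
      have hx1 : x 1 ∈ E := IntermediateField.subset_adjoin _ _ ⟨0, rfl⟩
      have hx2 : x 2 ∈ E := IntermediateField.subset_adjoin _ _ ⟨1, rfl⟩
      have hwE : y 1 ∉ E := by
        have hle : E ≤ (constField D).comap F.val := by
          rw [hE, IntermediateField.adjoin_le_iff]
          rintro z ⟨i, rfl⟩
          fin_cases i
          · exact hDx 1
          · exact hDx 2
        intro h0
        exact hDw (hle h0)
      rw [Fin.sum_univ_three, hx0'] at s1 s2
      have hy2' : y 2 = 1 := rfl
      rw [hy2'] at s1 s2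
      have hy0 : y 0 = -(x 1 ^ p * y 1 + x 2 ^ p) := by linear_combination s2
      have hwp : y 1 ^ p ∈ E := by
        have hne : x 1 - (x 1 ^ p) ^ p ≠ 0 := by
          intro h0
          have h1 : xM 1 - (xM 1 ^ p) ^ p = 0 := congrArg Subtype.val h0
          have h1' : xM 1 = e (X 0 ^ p) := by simp [hxM, pw, gpt]
          have h2 : e (X 0 ^ p - ((X 0 ^ p) ^ p) ^ p) = 0 := by
            rw [h1', ← map_pow, ← map_pow, ← map_sub] at h1
            exact h1
          rw [map_eq_zero_iff e hinj, sub_eq_zero, ← pow_mul, ← pow_mul] at h2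
          have h3 := congrArg totalDegree h2
          rw [totalDegree_X_pow, totalDegree_X_pow] at h3
          have := hp.two_le
          nlinarith [Nat.mul_le_mul_left p this]
        have heq : y 1 ^ p = ((x 2 ^ p) ^ p - x 2) / (x 1 - (x 1 ^ p) ^ p) := by
          rw [eq_div_iff hne]
          have h1 : (-(x 1 ^ p * y 1 + x 2 ^ p)) ^ p = -((x 1 ^ p) ^ p * y 1 ^ p + (x 2 ^ p) ^ p) := by
            rw [neg_pow, add_pow_char, mul_pow]
            have h7 : (-1 : F) ^ p = -1 := by
              rcases hp.eq_two_or_odd' with h | h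
              · subst h
                have : (-1 : F) = 1 := by
                  have h8 : (2 : F) = 0 := CharTwo.two_eq_zero
                  linear_combination -h8
                rw [this, one_pow]
              · exact h.neg_one_pow
            rw [h7]; ring
          rw [hy0, h1, one_pow] at s1
          linear_combination s1
        rw [heq]
        exact div_mem (sub_mem (pow_mem (pow_mem hx2 _) _) hx2)
          (sub_mem hx1 (pow_mem (pow_mem hx1 _) _))
      refine finrank_insep hp E hwE hwp ?_
      rw [← IntermediateField.restrictScalars_eq_top_iff (K := k), eq_top_iff, ← hgen,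
        IntermediateField.adjoin_le_iff]
      have hmem : ∀ z ∈ E, z ∈ (IntermediateField.adjoin E {y 1}).restrictScalars k := by
        intro z hz
        exact (IntermediateField.adjoin E {y 1}).algebraMap_mem ⟨z, hz⟩
      have hy1 : y 1 ∈ (IntermediateField.adjoin E {y 1}).restrictScalars k :=
        IntermediateField.mem_adjoin_simple_self E (y 1)
      rintro z (rfl | rfl | rfl | rfl)
      · exact hmem _ hx1
      · exact hmem _ hx2
      · rw [hy0]
        exact neg_mem (add_mem (mul_mem (pow_mem (hmem _ hx1) _) hy1) (pow_mem (hmem _ hx2) _))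
      · exact hy1

end Q36.ZS
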