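import Mathlib
import Pool.Agent.Q36.ZS.Fc
import Pool.Agent.Q36.ZS.Fs

/-! Smoothness, the open set of lines, and the bound on the degrees in characteristic two. -/

namespace Q36.ZS

open MvPolynomial

variable (k : Type) [Field k] (p : ℕ) [Fact p.Prime] [CharP k p]

theorem smooth (z : (Fin 3 → k) × (Fin 3 → k)) (hz : z ∈ Locus (surface k p)) :
    LinearIndependent k ![grad (eqOne k p) z, grad (eqTwo k p) z] := by
  have hp : p.Prime := Fact.out
  have hp0 : p ≠ 0 := hp.ne_zero
  obtain ⟨hx, hy, -⟩ := hz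
  have hpk : (p : k) = 0 := CharP.cast_eq_zero k p
  have hpP : ((p : ℕ) : MvPolynomial (Fin 3 ⊕ Fin 3) k) = 0 := CharP.cast_eq_zero _ p
  have g1 : ∀ i, grad (eqOne k p) z (Sum.inl i) = z.2 i ^ p := by
    intro i
    fin_cases i <;>
      simp [grad, eqOne, Fin.sum_univ_three, Derivation.leibniz, Derivation.leibniz_pow, pderiv_X,
        Pi.single_apply, hpP]
  have g2 : ∀ i, grad (eqOne k p) z (Sum.inr i) = 0 := by
    intro i
    fin_cases i <;>
      simp [grad, eqOne, Fin.sum_univ_three, Derivation.leibniz, Derivation.leibniz_pow, pderiv_X,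
        Pi.single_apply, hpP]
  have g3 : ∀ i, grad (eqTwo k p) z (Sum.inl i) = 0 := by
    intro i
    fin_cases i <;>
      simp [grad, eqTwo, Fin.sum_univ_three, Derivation.leibniz, Derivation.leibniz_pow, pderiv_X,
        Pi.single_apply, hpP]
  have g4 : ∀ i, grad (eqTwo k p) z (Sum.inr i) = z.1 i ^ p := by
    intro i
    fin_cases i <;>
      simp [grad, eqTwo, Fin.sum_univ_three, Derivation.leibniz, Derivation.leibniz_pow, pderiv_X,
        Pi.single_apply, hpP]
  rw [LinearIndependent.pair_iff]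
  intro s t h
  obtain ⟨i, hi⟩ := exists_ne hx
  obtain ⟨j, hj⟩ := exists_ne hy
  have h1 := congrFun h (Sum.inl j)
  have h2 := congrFun h (Sum.inr i)
  simp [g1, g2, g3, g4, hp0, hi, hj] at h1 h2
  exact ⟨h1, h2⟩

/-- the determinant of Moore, as a polynomial -/
noncomputable def mooreP : MvPolynomial (Fin 3) k :=
  dt (cr X (pw (p ^ 2) X)) (pw (p ^ 2 * p ^ 2) X)

variable {k}

theorem eval_mooreP (l : Fin 3 → k) : eval l (mooreP k p) = moore (p ^ 2) l := by
  have h : ∀ n : ℕ, (fun i => eval l (pw n (X : Fin 3 → MvPolynomial (Fin 3) k) i)) = pw n l := by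
    intro n; funext i; simp [pw]
  have h' : (fun i => eval l (X i : MvPolynomial (Fin 3) k)) = l := by
    funext i; simp
  rw [mooreP, map_dt, moore, h]
  congr 1
  funext i
  rw [map_cr, h, h']

theorem moore_pw (m : Fin 3 → k) : moore (p ^ 2) (pw p m) = moore (p ^ 2) m ^ p := by
  have h := dt_pw p 1 (cr m (pw (p ^ 2) m)) (pw (p ^ 2 * p ^ 2) m)
  rw [← cr_pw, pow_one] at h
  have c : ∀ n, pw n (pw p m) = pw p (pw n m) := fun n => by rw [pw_pw, pw_pw, mul_comm]
  rw [moore, moore, ← h, c, c]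

theorem mooreP_ne [Infinite k] : mooreP k p ≠ 0 := by
  have hp : p.Prime := Fact.out
  have hp2 := hp.two_le
  have hq : 1 < p ^ 2 := by nlinarith
  have hqq : p ^ 2 < p ^ 2 * p ^ 2 := by nlinarith
  intro h0
  have h1 : ∀ l : Fin 3 → k, moore (p ^ 2) l = 0 := by
    intro l
    rw [← eval_mooreP, h0, map_zero]
  obtain ⟨s, hs⟩ : ∃ s : k, s ^ p ^ 2 - s ≠ 0 := by
    by_contra hcon
    push Not at hcon
    have h6 : (Polynomial.X ^ p ^ 2 - Polynomial.X : Polynomial k) = 0 := by
      apply Polynomial.funext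
      intro s
      simpa using hcon s
    have h7 : (Polynomial.X ^ p ^ 2 - Polynomial.X : Polynomial k).coeff (p ^ 2) = 1 := by
      simp [Polynomial.coeff_X_pow, Polynomial.coeff_X, hq.ne]
    rw [h6] at h7
    simp at h7
  set G : Polynomial k := Polynomial.C s * Polynomial.X ^ p ^ 2 -
    Polynomial.X * Polynomial.C (s ^ p ^ 2) +
    (Polynomial.X - Polynomial.X ^ p ^ 2) * Polynomial.C (s ^ (p ^ 2 * p ^ 2)) +
    Polynomial.C (s ^ p ^ 2 - s) * Polynomial.X ^ (p ^ 2 * p ^ 2) with hG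
  have hG0 : G = 0 := by
    apply Polynomial.funext
    intro t
    have h2 := h1 ![1, s, t]
    simp [moore, dt, cr, pw] at h2
    rw [Polynomial.eval_zero, ← h2]
    simp [hG]
  have hGc : G.coeff (p ^ 2 * p ^ 2) = s ^ p ^ 2 - s := by
    have e1 : p ^ 2 * p ^ 2 ≠ p ^ 2 := hqq.ne'
    have e2 : 1 ≠ p ^ 2 * p ^ 2 := by omega
    simp only [hG, Polynomial.coeff_add, Polynomial.coeff_sub, Polynomial.coeff_C_mul,
      Polynomial.coeff_mul_C, Polynomial.coeff_X_pow, Polynomial.coeff_X, e1, e2, if_false,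
      if_true]
    ring
  rw [hG0, Polynomial.coeff_zero] at hGc
  exact hs hGc.symm

theorem lines [IsAlgClosed k] : ∃ Q : MvPolynomial (Fin 3) k, Q ≠ 0 ∧
    ∀ l : Fin 3 → k, eval l Q ≠ 0 → ∃ x y : Fin 3 → RatFunc k,
      IsFunctionField (Locus (surface k p ∪ {lineEq k l})) (RatFunc k) x y ∧
      LeastDegree k (RatFunc k) 1 1 := by
  have hinf : Infinite k := IsAlgClosed.instInfinite
  have hp : p.Prime := Fact.out
  refine ⟨mooreP k p, mooreP_ne p, fun l hl => ?_⟩
  rw [eval_mooreP] at hl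
  have hroot : ∀ i, ∃ s, s ^ p = l i := fun i => IsAlgClosed.exists_pow_nat_eq _ hp.pos
  choose m hm using hroot
  have hl' : l = pw p m := by funext i; exact (hm i).symm
  subst hl'
  rw [moore_pw] at hl
  obtain ⟨x, y, h⟩ := curve p (m := m) (fun h0 => hl (by rw [h0, zero_pow hp.ne_zero]))
  exact ⟨x, y, h, least_one k⟩

variable (k)

theorem top_of_finrank_one {K : Type} [Field K] [Algebra k K] (E : IntermediateField k K)
    (h : Module.finrank E K = 1) : E = ⊤ :=
  IntermediateField.finrank_eq_one_iff_eq_top.1 h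

/-- the statement of the result, for a given characteristic -/
theorem main_two [IsAlgClosed k] [CharP k 2] :
    ∃ (K : Type) (_ : Field K) (_ : Algebra k K) (x y : Fin 3 → K),
      IsFunctionField (Locus (surface k 2)) K x y ∧
      IsMapOfDegree k K 2 ![x 1 / x 0, x 2 / x 0] 2 ∧ LeastDegree k K 2 2 := by
  have : Fact (Nat.Prime 2) := ⟨Nat.prime_two⟩
  obtain ⟨K, _, _, x, y, hx, hy, hgen, h1, h2, h3, h4⟩ := surface_field k 2
  refine ⟨K, inferInstance, inferInstance, x, y, h3, h4, ⟨⟨_, h4⟩, ?_⟩⟩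
  rintro e ⟨f, hf, he, hd⟩
  by_contra hlt
  have he1 : e = 1 := by omega
  subst he1
  have hcK : CharP K 2 := charP_of_injective_algebraMap (algebraMap k K).injective 2
  exact not_rational 2 le_rfl h1 h2 hx hy hgen hf (top_of_finrank_one k _ hd)

end Q36.ZS
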